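import Mathlib

/-!
# Division algebras of prime degree

`A` is a central division algebra of dimension `p ^ 2` over the field `F`, `p` prime.
-/

set_option autoImplicit false

open Module Polynomial

namespace Pool.Agent.H78.FMR

section dim

variable {F A : Type*} [Field F] [DivisionRing A] [Algebra F A] [FiniteDimensional F A]

/-- the dimension of a subalgebra of a division algebra divides -/
theorem finrank_dvd {E1 E2 : Subalgebra F A} (h : E1 ≤ E2) : finrank F E1 ∣ finrank F E2 := by
  let _ : DivisionRing E1 := divisionRingOfFiniteDimensional F E1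
  let _ : Module E1 E2 := Module.compHom E2 (Subalgebra.inclusion h).toRingHom
  have : IsScalarTower F E1 E2 := ⟨fun a b c => by
    apply Subtype.ext
    show ((a • b : E1) : A) * (c : A) = a • ((b : A) * (c : A))
    rw [Subalgebra.coe_smul, smul_mul_assoc]⟩
  exact ⟨_, (Module.finrank_mul_finrank F E1 E2).symm⟩

/-- roots in a commutative subalgebra -/
theorem roots_finite (K : Subalgebra F A) (hK : ∀ b ∈ K, ∀ c ∈ K, b * c = c * b) {P : F[X]}
    (hP : P ≠ 0) : {w : A | w ∈ K ∧ aeval w P = 0}.Finite ∧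
      {w : A | w ∈ K ∧ aeval w P = 0}.ncard ≤ P.natDegree := by
  classical
  let _ : CommRing K := { (inferInstance : Ring K) with
    mul_comm := fun b c => Subtype.ext (hK _ b.2 _ c.2) }
  have e : {w : A | w ∈ K ∧ aeval w P = 0} = Subtype.val '' (P.rootSet K) := by
    ext w
    simp only [Set.mem_ofPred_eq, Set.mem_image, Subtype.exists, exists_and_right, exists_eq_right]
    constructor
    · rintro ⟨h1, h2⟩
      refine ⟨h1, ?_⟩
      rw [mem_rootSet]
      refine ⟨hP, ?_⟩
      apply Subtype.ext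
      have := aeval_subalgebra_coe P K ⟨w, h1⟩
      rw [this]
      exact h2
    · rintro ⟨h1, h2⟩
      rw [mem_rootSet] at h2
      refine ⟨h1, ?_⟩
      have := aeval_subalgebra_coe P K ⟨w, h1⟩
      rw [← this, h2.2]
      rfl
  rw [e]
  refine ⟨(P.rootSet_finite K).image _, ?_⟩
  rw [Set.ncard_image_of_injective _ Subtype.val_injective]
  rw [rootSet_def, Set.ncard_coe_finset]
  refine (Multiset.toFinset_card_le _).trans ?_
  refine (card_roots' _).trans ?_
  exact natDegree_map_le

/-- an element that satisfies a monic polynomial generates an algebra of small dimension -/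
theorem finrank_adjoin_le {z : A} {g : F[X]} (hg : g.Monic) (hz : aeval z g = 0) :
    finrank F (Algebra.adjoin F {z}) ≤ g.natDegree := by
  have h1 : (Algebra.adjoin F {z}).toSubmodule =
      (degreeLT F g.natDegree).map (aeval z).toLinearMap := by
    rw [Algebra.adjoin_singleton_eq_range_aeval]
    ext w
    simp only [Subalgebra.mem_toSubmodule, AlgHom.mem_range, Submodule.mem_map,
      AlgHom.toLinearMap_apply]
    constructor
    · rintro ⟨f, rfl⟩
      refine ⟨f %ₘ g, ?_, ?_⟩
      · rw [mem_degreeLT]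
        refine lt_of_lt_of_le (degree_modByMonic_lt f hg) ?_
        rw [degree_eq_natDegree hg.ne_zero]
      · conv_rhs => rw [← modByMonic_add_div f g]
        rw [map_add, map_mul, hz, zero_mul, add_zero]
    · rintro ⟨f, -, rfl⟩
      exact ⟨f, rfl⟩
  have h2 : finrank F (Algebra.adjoin F {z}) =
      finrank F ((degreeLT F g.natDegree).map (aeval z).toLinearMap) := by
    rw [← h1]; rfl
  rw [h2]
  have : Module.Finite F (degreeLT F g.natDegree) :=
    Module.Finite.equiv (degreeLTEquiv F g.natDegree).symm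
  refine (Submodule.finrank_map_le _ _).trans ?_
  rw [LinearEquiv.finrank_eq (degreeLTEquiv F g.natDegree)]
  simp

/-- conjugates satisfy the same polynomials -/
theorem aeval_conj (P : F[X]) (x : A) (g : Aˣ) (h : aeval x P = 0) :
    aeval ((g : A) * x * ((g⁻¹ : Aˣ) : A)) P = 0 := by
  have e : aeval ((g : A) * x * ((g⁻¹ : Aˣ) : A)) P = g * aeval x P * ((g⁻¹ : Aˣ) : A) := by
    rw [aeval_eq_sum_range, aeval_eq_sum_range, Finset.mul_sum, Finset.sum_mul]
    refine Finset.sum_congr rfl fun i _ => ?_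
    rw [Units.conj_pow, mul_smul_comm, smul_mul_assoc]
  rw [e, h, mul_zero, zero_mul]

end dim

section central

variable {F A : Type*} [Field F] [DivisionRing A] [Algebra F A] [Algebra.IsCentral F A]
  {p : ℕ} (hp : p.Prime) (hdim : finrank F A = p ^ 2)

include hp hdim

theorem fd : FiniteDimensional F A :=
  FiniteDimensional.of_finrank_pos (by rw [hdim]; exact pow_pos hp.pos 2)

theorem finrank_cen {a : A} (ha : a ∉ (⊥ : Subalgebra F A)) :
    finrank F (Subalgebra.centralizer F {a}) = p := by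
  have := fd hp hdim
  have h1 : finrank F (Subalgebra.centralizer F {a}) ∣ p ^ 2 := by
    rw [← hdim, ← (Subalgebra.topEquiv (R := F) (A := A)).toLinearEquiv.finrank_eq]
    exact finrank_dvd le_top
  obtain ⟨k, hk, hk'⟩ := (Nat.dvd_prime_pow hp).1 h1
  have ha' : a ∈ Subalgebra.centralizer F {a} := by
    rw [Subalgebra.mem_centralizer_iff]
    intro g hg
    rw [Set.mem_singleton_iff.1 hg]
  interval_cases k
  · exfalso
    rw [pow_zero] at hk'
    have := Subalgebra.eq_bot_of_finrank_one hk'
    rw [this] at ha'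
    exact ha ha'
  · rw [hk', pow_one]
  · exfalso
    have h2 : (Subalgebra.centralizer F {a}).toSubmodule = ⊤ := by
      apply Submodule.eq_top_of_finrank_eq
      rw [Subalgebra.finrank_toSubmodule, hk', hdim]
    apply ha
    have h3 : a ∈ Subalgebra.center F A := by
      rw [Subalgebra.mem_center_iff]
      intro b
      have hb : b ∈ (Subalgebra.centralizer F {a}).toSubmodule := by rw [h2]; trivial
      rw [Subalgebra.mem_toSubmodule, Subalgebra.mem_centralizer_iff] at hb
      exact (hb a rfl).symm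
    rwa [Algebra.IsCentral.center_eq_bot] at h3

theorem finrank_adj {a : A} (ha : a ∉ (⊥ : Subalgebra F A)) :
    finrank F (Algebra.adjoin F {a}) = p ∧
      Algebra.adjoin F {a} = Subalgebra.centralizer F {a} := by
  have := fd hp hdim
  have hle : Algebra.adjoin F {a} ≤ Subalgebra.centralizer F {a} := by
    refine Algebra.adjoin_le ?_
    intro b hb
    rw [Set.mem_singleton_iff.1 hb]
    show a ∈ Subalgebra.centralizer F {a}
    rw [Subalgebra.mem_centralizer_iff]
    intro g hg
    rw [Set.mem_singleton_iff.1 hg]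
  have h1 := finrank_dvd hle
  rw [finrank_cen hp hdim ha] at h1
  have h2 : finrank F (Algebra.adjoin F {a}) = p := by
    rcases (Nat.dvd_prime hp).1 h1 with h | h
    · exfalso
      have := Subalgebra.eq_bot_of_finrank_one h
      apply ha
      rw [← this]
      exact Algebra.self_mem_adjoin_singleton F a
    · exact h
  refine ⟨h2, ?_⟩
  have h3 : (Algebra.adjoin F {a}).toSubmodule = (Subalgebra.centralizer F {a}).toSubmodule := by
    apply Submodule.eq_of_le_of_finrank_eq hle
    rw [Subalgebra.finrank_toSubmodule, Subalgebra.finrank_toSubmodule, h2,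
      finrank_cen hp hdim ha]
  exact Subalgebra.toSubmodule_injective h3

/-- centralisers of noncentral elements are commutative -/
theorem cen_comm {a b c : A} (ha : a ∉ (⊥ : Subalgebra F A)) (hb : a * b = b * a)
    (hc : a * c = c * a) : b * c = c * b := by
  have h1 : b ∈ Algebra.adjoin F {a} := by
    rw [(finrank_adj hp hdim ha).2, Subalgebra.mem_centralizer_iff]
    intro g hg
    rw [Set.mem_singleton_iff.1 hg, hb]
  have h2 : Algebra.adjoin F {a} ≤ Subalgebra.centralizer F {c} := by
    refine Algebra.adjoin_le ?_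
    intro g hg
    rw [Set.mem_singleton_iff.1 hg]
    show a ∈ Subalgebra.centralizer F {c}
    rw [Subalgebra.mem_centralizer_iff]
    intro g hg
    rw [Set.mem_singleton_iff.1 hg, hc]
  have h3 := h2 h1
  rw [Subalgebra.mem_centralizer_iff] at h3
  exact (h3 c rfl).symm

/-- an element that commutes with two noncommuting elements is central -/
theorem mem_bot_of_comm {a b c : A} (hb : a * b = b * a) (hc : a * c = c * a)
    (hbc : b * c ≠ c * b) : a ∈ (⊥ : Subalgebra F A) := by
  by_contra ha
  exact hbc (cen_comm hp hdim ha hb hc)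

omit [Algebra.IsCentral F A] hp hdim in
theorem bot_comm {a : A} (ha : a ∈ (⊥ : Subalgebra F A)) (b : A) : a * b = b * a := by
  rw [Algebra.mem_bot] at ha
  obtain ⟨c, rfl⟩ := ha
  exact Algebra.commutes c b

/-- a monic polynomial of an element outside `F` has degree at least `p` -/
theorem le_natDegree {z : A} (hz : z ∉ (⊥ : Subalgebra F A)) {g : F[X]} (hg : g.Monic)
    (h : aeval z g = 0) : p ≤ g.natDegree := by
  have := fd hp hdim
  rw [← (finrank_adj hp hdim hz).1]
  exact finrank_adjoin_le hg h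

/-- the `p`-th roots of unity are in `F` -/
theorem root_unity {z : A} (hz : z ^ p = 1) : z ∈ (⊥ : Subalgebra F A) := by
  by_contra hcon
  have h1 : z ≠ 1 := by
    rintro rfl
    exact hcon (one_mem _)
  have h2 : (∑ i ∈ Finset.range p, z ^ i) * (z - 1) = 0 := by
    rw [geom_sum_mul, hz, sub_self]
  have h3 : ∑ i ∈ Finset.range p, z ^ i = 0 := by
    rcases mul_eq_zero.1 h2 with h | h
    · exact h
    · exact absurd (sub_eq_zero.1 h) h1
  have h4 : (∑ i ∈ Finset.range p, (X : F[X]) ^ i).Monic := monic_geom_sum_X hp.ne_zero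
  have h5 := le_natDegree hp hdim hcon h4 (by simpa using h3)
  have h6 : (∑ i ∈ Finset.range p, (X : F[X]) ^ i).natDegree ≤ p - 1 := by
    refine natDegree_sum_le_of_forall_le _ _ fun i hi => ?_
    rw [natDegree_X_pow]
    have := Finset.mem_range.1 hi
    omega
  have := hp.two_le
  omega

/-- a polynomial of degree at most `p` that kills `x` -/
theorem exists_poly {x : A} (hx : x ∉ (⊥ : Subalgebra F A)) :
    ∃ P : F[X], P.Monic ∧ P.natDegree ≤ p ∧ aeval x P = 0 := by
  have := fd hp hdim
  have hx' : x ∈ Subalgebra.centralizer F {x} := by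
    rw [Subalgebra.mem_centralizer_iff]
    intro g hg
    rw [Set.mem_singleton_iff.1 hg]
  refine ⟨minpoly F (⟨x, hx'⟩ : Subalgebra.centralizer F {x}), minpoly.monic
    (Algebra.IsIntegral.isIntegral _), ?_, ?_⟩
  · rw [← finrank_cen hp hdim hx]
    exact minpoly.natDegree_le _
  · have := aeval_subalgebra_coe (minpoly F (⟨x, hx'⟩ : Subalgebra.centralizer F {x}))
      (Subalgebra.centralizer F {x}) ⟨x, hx'⟩
    rw [minpoly.aeval] at this
    exact this.symm

/-- if `y` normalises the centraliser of `x` then `y ^ p ∈ F` -/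
theorem pow_mem {x : A} {y : Aˣ} (hxy : (y : A) * x ≠ x * y)
    (hn : x * ((y : A) * x * ((y⁻¹ : Aˣ) : A)) = ((y : A) * x * ((y⁻¹ : Aˣ) : A)) * x) :
    (y : A) ^ p ∈ (⊥ : Subalgebra F A) := by
  classical
  have := fd hp hdim
  have hx : x ∉ (⊥ : Subalgebra F A) := fun h => hxy (bot_comm h y).symm
  have hy : (y : A) ∉ (⊥ : Subalgebra F A) := fun h => hxy (bot_comm h x)
  obtain ⟨P, hP, hdeg, hPx⟩ := exists_poly hp hdim hx
  -- all conjugates commute with x
  have hcomm : ∀ b : A, x * b = b * x → x * ((y : A) * b * ((y⁻¹ : Aˣ) : A)) =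
      ((y : A) * b * ((y⁻¹ : Aˣ) : A)) * x := by
    intro b hb
    have hx1 : (y : A) * x * ((y⁻¹ : Aˣ) : A) ∉ (⊥ : Subalgebra F A) := by
      intro h
      apply hx
      have h1 := bot_comm h (y : A)
      have h2 : (y : A) * x = y * ((y : A) * x * ((y⁻¹ : Aˣ) : A)) := by
        rw [← h1, mul_assoc, Units.inv_mul, mul_one]
      have h3 : x = (y : A) * x * ((y⁻¹ : Aˣ) : A) := Units.mul_right_inj y |>.1 h2
      rw [h3]
      exact h
    refine cen_comm hp hdim hx1 hn.symm ?_
    have e1 : (y : A) * x * ((y⁻¹ : Aˣ) : A) * ((y : A) * b * ((y⁻¹ : Aˣ) : A)) =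
        (y : A) * (x * b) * ((y⁻¹ : Aˣ) : A) := by
      calc (y : A) * x * ((y⁻¹ : Aˣ) : A) * ((y : A) * b * ((y⁻¹ : Aˣ) : A)) =
          (y : A) * x * (((y⁻¹ : Aˣ) : A) * (y : A)) * b * ((y⁻¹ : Aˣ) : A) := by
            simp only [mul_assoc]
        _ = _ := by rw [Units.inv_mul, mul_one]; simp only [mul_assoc]
    have e2 : (y : A) * b * ((y⁻¹ : Aˣ) : A) * ((y : A) * x * ((y⁻¹ : Aˣ) : A)) =
        (y : A) * (b * x) * ((y⁻¹ : Aˣ) : A) := by
      calc (y : A) * b * ((y⁻¹ : Aˣ) : A) * ((y : A) * x * ((y⁻¹ : Aˣ) : A)) =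
          (y : A) * b * (((y⁻¹ : Aˣ) : A) * (y : A)) * x * ((y⁻¹ : Aˣ) : A) := by
            simp only [mul_assoc]
        _ = _ := by rw [Units.inv_mul, mul_one]; simp only [mul_assoc]
    rw [e1, e2, hb]
  set X : ℕ → A := fun i => ((y ^ i : Aˣ) : A) * x * (((y ^ i)⁻¹ : Aˣ) : A) with hX
  have hXs : ∀ i, X (i + 1) = (y : A) * X i * ((y⁻¹ : Aˣ) : A) := by
    intro i
    simp only [hX]
    rw [pow_succ', mul_inv_rev, Units.val_mul, Units.val_mul]
    simp only [mul_assoc]
  have hXc : ∀ i, x * X i = X i * x := by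
    intro i
    induction i with
    | zero => simp [hX]
    | succ i ih => rw [hXs]; exact hcomm _ ih
  have hXr : ∀ i, X i ∈ {w : A | w ∈ Subalgebra.centralizer F {x} ∧ aeval w P = 0} := by
    intro i
    refine ⟨?_, aeval_conj P x (y ^ i) hPx⟩
    rw [Subalgebra.mem_centralizer_iff]
    intro g hg
    rw [Set.mem_singleton_iff.1 hg]
    exact hXc i
  have hKc : ∀ b ∈ Subalgebra.centralizer F {x}, ∀ c ∈ Subalgebra.centralizer F {x},
      b * c = c * b := by
    intro b hb c hc
    rw [Subalgebra.mem_centralizer_iff] at hb hc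
    exact cen_comm hp hdim hx (hb x rfl) (hc x rfl)
  obtain ⟨hfin, hcard⟩ := roots_finite (Subalgebra.centralizer F {x}) hKc hP.ne_zero
  -- two of the first p + 1 conjugates coincide
  obtain ⟨i, hi, j, hj, hij, hXij⟩ : ∃ i ∈ Finset.range (p + 1), ∃ j ∈ Finset.range (p + 1),
      i ≠ j ∧ X i = X j := by
    refine Finset.exists_ne_map_eq_of_card_lt_of_maps_to (t := hfin.toFinset) ?_ ?_
    · rw [Finset.card_range, ← Set.ncard_eq_toFinset_card _ hfin]
      omega
    · intro i _
      simpa using hXr i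
  obtain ⟨i, j, hij, hj, hXij⟩ : ∃ i j, i < j ∧ j ≤ p ∧ X i = X j := by
    rw [Finset.mem_range] at hi hj
    rcases lt_or_gt_of_ne hij with h | h
    · exact ⟨i, j, h, by omega, hXij⟩
    · exact ⟨j, i, h, by omega, hXij.symm⟩
  obtain ⟨r, rfl⟩ : ∃ r, j = i + r := ⟨j - i, by omega⟩
  have hr : 1 ≤ r := by omega
  have hcr : ((y ^ r : Aˣ) : A) * x = x * ((y ^ r : Aˣ) : A) := by
    simp only [hX] at hXij
    have h1 : ((y ^ (i + r) : Aˣ) : A) = ((y ^ i : Aˣ) : A) * ((y ^ r : Aˣ) : A) := by
      rw [pow_add, Units.val_mul]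
    have h2 : (((y ^ (i + r))⁻¹ : Aˣ) : A) = (((y ^ r)⁻¹ : Aˣ) : A) * (((y ^ i)⁻¹ : Aˣ) : A) := by
      rw [pow_add, mul_inv_rev, Units.val_mul]
    rw [h1, h2] at hXij
    have h3 : ((y ^ i : Aˣ) : A) * (x * (((y ^ i)⁻¹ : Aˣ) : A)) =
        ((y ^ i : Aˣ) : A) * ((((y ^ r : Aˣ) : A) * x * (((y ^ r)⁻¹ : Aˣ) : A)) *
          (((y ^ i)⁻¹ : Aˣ) : A)) := by
      calc _ = ((y ^ i : Aˣ) : A) * x * (((y ^ i)⁻¹ : Aˣ) : A) := by rw [mul_assoc]
        _ = _ := hXij
        _ = _ := by simp only [mul_assoc]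
    have h4 := (Units.mul_right_inj (y ^ i)).1 h3
    have h5 := (Units.mul_left_inj ((y ^ i)⁻¹)).1 h4
    have h6 : x * ((y ^ r : Aˣ) : A) = ((y ^ r : Aˣ) : A) * x := by
      conv_lhs => rw [h5]
      rw [mul_assoc, Units.inv_mul, mul_one]
    exact h6.symm
  have hyr : (y : A) ^ r ∈ (⊥ : Subalgebra F A) := by
    refine mem_bot_of_comm hp hdim (b := x) (c := y) ?_ ?_ (Ne.symm hxy)
    · have := hcr
      rwa [Units.val_pow_eq_pow_val] at this
    · rw [← pow_succ, ← pow_succ']
  have hpr : p ≤ r := by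
    rw [Algebra.mem_bot] at hyr
    obtain ⟨c, hc⟩ := hyr
    have h1 := le_natDegree hp hdim hy (monic_X_pow_sub_C c (by omega : r ≠ 0))
      (by rw [map_sub, map_pow, aeval_X, aeval_C, hc, sub_self])
    rwa [natDegree_X_pow_sub_C] at h1
  have : r = p := by omega
  rwa [this] at hyr

end central

end Pool.Agent.H78.FMR
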