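import Pool.Agent.H78.FMR.Rank

/-!
# Ranked groups as first-order structures
-/

set_option autoImplicit false

open Set FirstOrder

namespace Pool.Agent.H78.FMR

universe u v w

/-- A ranked group (axioms of Borovik and Poizat, for definable subsets of `G` and of `G × G`):
`G` is a group with a first-order structure in a language `L` in which the multiplication is
definable, and the rank (`RkGe d A`: the rank of the definable set `A` is at least `d`) is finite,
definable and additive. -/
structure IsRanked (L : FirstOrder.Language.{u, v}) (G : Type w) [Group G] [L.Structure G] : Prop where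
  mul : (univ : Set G).Definable L {x : Fin 3 → G | x 0 * x 1 = x 2}
  finite : ∃ N, ¬ RkGe ((univ : Set G).Definable₁ L) N univ
  definable : ∀ E : Set (G × G), (univ : Set G).Definable₂ L E → ∀ d,
    (univ : Set G).Definable₁ L {a | RkGe ((univ : Set G).Definable₁ L) d {b | (a, b) ∈ E}}
  additive : ∀ E : Set (G × G), (univ : Set G).Definable₂ L E → ∀ e,
    (∀ a, (∃ b, (a, b) ∈ E) → RkGe ((univ : Set G).Definable₁ L) e {b | (a, b) ∈ E} ∧
      ¬ RkGe ((univ : Set G).Definable₁ L) (e + 1) {b | (a, b) ∈ E}) →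
    ∀ d, RkGe ((univ : Set G).Definable₂ L) (d + e) E ↔
      RkGe ((univ : Set G).Definable₁ L) d {a | ∃ b, (a, b) ∈ E}

variable {L : FirstOrder.Language.{u, v}} {G : Type w} [Group G] [L.Structure G]

theorem mul_rel (hmul : (univ : Set G).Definable L {x : Fin 3 → G | x 0 * x 1 = x 2}) {n : ℕ}
    (i j l : Fin n) : (univ : Set G).Definable L {y : Fin n → G | y i * y j = y l} :=
  hmul.preimage_comp ![i, j, l]

theorem mem_rel {A : Set G} (hA : (univ : Set G).Definable₁ L A) {n : ℕ} (i : Fin n) :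
    (univ : Set G).Definable L {y : Fin n → G | y i ∈ A} :=
  Definable.preimage_comp ![i] hA

/-- a ranked group satisfies the axioms of `DG` -/
theorem IsRanked.dg (h : IsRanked L G) :
    DG G ((univ : Set G).Definable₁ L) ((univ : Set G).Definable₂ L) where
  inter1 A B hA hB := Definable.inter hA hB
  compl1 A hA := Definable.compl hA
  single g := Definable.singleton_of_mem L (mem_univ g)
  inter2 A B hA hB := Definable.inter hA hB
  compl2 A hA := Definable.compl hA
  swap E hE := by
    have := Definable.preimage_comp ![(1 : Fin 2), 0] hE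
    exact this
  fib E hE a := by
    have h1 : (univ : Set G).Definable L {y : Fin 2 → G | (y 0, y 1) ∈ E ∧ y 0 ∈ ({a} : Set G)} :=
      Definable.inter hE (mem_rel (Definable.singleton_of_mem L (mem_univ a)) 0)
    have h2 := h1.image_comp ![(1 : Fin 2)]
    have e : (fun g : Fin 2 → G => g ∘ ![(1 : Fin 2)]) ''
        {y : Fin 2 → G | (y 0, y 1) ∈ E ∧ y 0 ∈ ({a} : Set G)} =
        {x : Fin 1 → G | x 0 ∈ {b | (a, b) ∈ E}} := by
      ext x
      constructor
      · rintro ⟨y, ⟨hy1, hy2⟩, rfl⟩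
        have h3 : y 0 = a := hy2
        rw [h3] at hy1
        exact hy1
      · intro hx
        refine ⟨![a, x 0], ⟨hx, rfl⟩, ?_⟩
        funext i
        fin_cases i
        rfl
    rw [e] at h2
    exact h2
  proj E hE := by
    have h2 := Definable.image_comp hE ![(0 : Fin 2)]
    have e : (fun g : Fin 2 → G => g ∘ ![(0 : Fin 2)]) '' {y : Fin 2 → G | (y 0, y 1) ∈ E} =
        {x : Fin 1 → G | x 0 ∈ {a | ∃ b, (a, b) ∈ E}} := by
      ext x
      constructor
      · rintro ⟨y, hy, rfl⟩
        exact ⟨y 1, hy⟩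
      · rintro ⟨b, hb⟩
        refine ⟨![x 0, b], hb, ?_⟩
        funext i
        fin_cases i
        rfl
    rw [e] at h2
    exact h2
  snd A hA := mem_rel hA 1
  mul A hA := by
    have h1 : (univ : Set G).Definable L {y : Fin 3 → G | y 0 * y 1 = y 2 ∧ y 2 ∈ A} :=
      Definable.inter h.mul (mem_rel hA 2)
    have h2 := h1.image_comp ![(0 : Fin 3), 1]
    have e : (fun g : Fin 3 → G => g ∘ ![(0 : Fin 3), 1]) ''
        {y : Fin 3 → G | y 0 * y 1 = y 2 ∧ y 2 ∈ A} =
        {x : Fin 2 → G | (x 0, x 1) ∈ {p : G × G | p.1 * p.2 ∈ A}} := by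
      ext x
      constructor
      · rintro ⟨y, ⟨hy1, hy2⟩, rfl⟩
        rw [← hy1] at hy2
        exact hy2
      · intro hx
        refine ⟨![x 0, x 1, x 0 * x 1], ⟨rfl, hx⟩, ?_⟩
        funext i
        fin_cases i <;> rfl
    rw [e] at h2
    exact h2
  conj A hA := by
    have h1 : (univ : Set G).Definable L
        {y : Fin 4 → G | y 2 ∈ A ∧ (y 0 * y 2 = y 3 ∧ y 1 * y 0 = y 3)} :=
      Definable.inter (mem_rel hA 2) (Definable.inter (mul_rel h.mul 0 2 3) (mul_rel h.mul 1 0 3))
    have h2 := h1.image_comp ![(0 : Fin 4), 1]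
    have e : (fun g : Fin 4 → G => g ∘ ![(0 : Fin 4), 1]) ''
        {y : Fin 4 → G | y 2 ∈ A ∧ (y 0 * y 2 = y 3 ∧ y 1 * y 0 = y 3)} =
        {x : Fin 2 → G | (x 0, x 1) ∈ {p : G × G | p.1⁻¹ * p.2 * p.1 ∈ A}} := by
      ext x
      constructor
      · rintro ⟨y, ⟨hy1, hy2, hy3⟩, rfl⟩
        have h3 : (y 0)⁻¹ * y 1 * y 0 = y 2 := by
          rw [mul_assoc, hy3, ← hy2, inv_mul_cancel_left]
        show (y 0)⁻¹ * y 1 * y 0 ∈ A
        rw [h3]
        exact hy1
      · intro hx
        refine ⟨![x 0, x 1, (x 0)⁻¹ * x 1 * x 0, x 1 * x 0], ⟨hx, ?_, rfl⟩, ?_⟩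
        · show x 0 * ((x 0)⁻¹ * x 1 * x 0) = x 1 * x 0
          rw [mul_assoc, mul_inv_cancel_left]
        · funext i
          fin_cases i <;> rfl
    rw [e] at h2
    exact h2
  fin := h.finite
  rkdef := h.definable
  add := h.additive

end Pool.Agent.H78.FMR
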