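import Pool.Agent.H78.FMR.Quo
import Pool.Agent.H78.FMR.Model

/-!
# Groups of units of division algebras are not of finite Morley rank
-/

set_option autoImplicit false

open Set Module

namespace Pool.Agent.H78.FMR

section main

variable {k F A D : Type*} [Field k] [Field F] [Algebra k F] [DivisionRing A]
  [Algebra k A] [Algebra F A] [IsScalarTower k F A] [Algebra.IsCentral F A] [DivisionRing D]
  [Algebra k D] (ι : A →ₐ[k] D)

variable (F) in
/-- the image of `F` in `D` -/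
def XF : Set D := Set.range fun f : F => ι (algebraMap F A f)

/-- the class of a unit of `A` -/
def mkA (a : Aˣ) : PU D := mk (Units.map (ι : A →* D) a)

theorem mkA_mul (a b : Aˣ) : mkA ι (a * b) = mkA ι a * mkA ι b := by
  unfold mkA
  rw [map_mul, mk_mul]

theorem mkA_inv (a : Aˣ) : mkA ι a⁻¹ = (mkA ι a)⁻¹ := by
  unfold mkA
  rw [map_inv, mk_inv]

theorem mkA_pow (a : Aˣ) (n : ℕ) : mkA ι (a ^ n) = mkA ι a ^ n := by
  unfold mkA
  rw [map_pow, mk_pow]

variable {S : Subgroup (PU D)}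

omit [Algebra k F] [IsScalarTower k F A] in
theorem mem_Z {s : S} {a : Aˣ} (hs : mkA ι a = (s : PU D)) :
    s ∈ SQ S (Set.range ι) ↔ (a : A) ∈ (⊥ : Subalgebra F A) := by
  have hv : mk (Units.map (ι : A →* D) a) = (s : PU D) := hs
  rw [mem_SQ hv]
  constructor
  · intro h
    have h1 : (a : A) ∈ Subalgebra.center F A := by
      rw [Subalgebra.mem_center_iff]
      intro b
      have h2 : ι (a * b) = ι (b * a) := by
        rw [map_mul, map_mul]
        exact h (ι b) ⟨b, rfl⟩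
      exact (ι.toRingHom.injective h2).symm
    rwa [Algebra.IsCentral.center_eq_bot] at h1
  · rintro h _ ⟨b, rfl⟩
    have h2 : ι (a * b) = ι (b * a) := by rw [bot_comm h b]
    rw [map_mul, map_mul] at h2
    exact h2

omit [Algebra k F] [IsScalarTower k F A] [Algebra.IsCentral F A] in
theorem mem_T {x : A} {s : S} {a : Aˣ} (hs : mkA ι a = (s : PU D)) :
    s ∈ SQ S (XF F ι ∪ {ι x}) ↔ (a : A) * x = x * a := by
  have hv : mk (Units.map (ι : A →* D) a) = (s : PU D) := hs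
  rw [mem_SQ hv]
  constructor
  · intro h
    have h2 : ι (a * x) = ι (x * a) := by
      rw [map_mul, map_mul]
      exact h (ι x) (Or.inr rfl)
    exact ι.toRingHom.injective h2
  · rintro h _ (⟨f, rfl⟩ | rfl)
    · have h2 : ι (a * algebraMap F A f) = ι (algebraMap F A f * a) := by
        rw [Algebra.commutes f (a : A)]
      rw [map_mul, map_mul] at h2
      exact h2
    · have h2 : ι (a * x) = ι (x * a) := by rw [h]
      rw [map_mul, map_mul] at h2
      exact h2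

omit [Algebra k F] [IsScalarTower k F A] [Algebra.IsCentral F A] in
theorem mem_H {s : S} {a : Aˣ} (hs : mkA ι a = (s : PU D)) : s ∈ SQ S (XF F ι) := by
  have hv : mk (Units.map (ι : A →* D) a) = (s : PU D) := hs
  rw [mem_SQ hv]
  rintro _ ⟨f, rfl⟩
  have h2 : ι (a * algebraMap F A f) = ι (algebraMap F A f * a) := by
    rw [Algebra.commutes f (a : A)]
  rw [map_mul, map_mul] at h2
  exact h2

omit [Algebra k F] [IsScalarTower k F A] [Algebra.IsCentral F A] in
theorem lift_H (hι : ∀ d : D, (∀ f : F, d * ι (algebraMap F A f) = ι (algebraMap F A f) * d) →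
    d ∈ ι.range) {s : S} (hs : s ∈ SQ S (XF F ι)) : ∃ a : Aˣ, mkA ι a = (s : PU D) := by
  obtain ⟨v, hv⟩ := mk_surj (s : PU D)
  rw [mem_SQ hv] at hs
  obtain ⟨a, ha⟩ := hι v fun f => hs _ ⟨f, rfl⟩
  have ha0 : a ≠ 0 := by
    rintro rfl
    have : ι (0 : A) = (v : D) := ha
    rw [map_zero] at this
    exact v.ne_zero this.symm
  refine ⟨Units.mk0 a ha0, ?_⟩
  rw [← hv]
  unfold mkA
  congr 1
  exact Units.ext ha

theorem exists_seq [Infinite k] {m : ℕ} (hm : (m : k) ≠ 0) (hS : ∀ g, g ^ m ∈ S) {x : A}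
    (hx : x ∉ (⊥ : Subalgebra F A)) :
    ∃ t : ℕ → S, (∀ i, t i ∈ SQ S (XF F ι ∪ {ι x})) ∧
      ∀ i j, i < j → (t i)⁻¹ * t j ∉ SQ S (Set.range ι) := by
  classical
  have hne : ∀ c : k, x + algebraMap k A c ≠ 0 := by
    intro c h
    apply hx
    have h1 : x = algebraMap F A (algebraMap k F (-c)) := by
      rw [← IsScalarTower.algebraMap_apply, map_neg]
      exact eq_neg_of_add_eq_zero_left h
    rw [h1]
    exact Subalgebra.algebraMap_mem _ _
  let el : k → Aˣ := fun c => Units.mk0 _ (hne c)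
  let tt : k → S := fun c => ⟨mkA ι (el c) ^ m, hS _⟩
  have htt : ∀ c, mkA ι (el c ^ m) = (tt c : PU D) := fun c => mkA_pow ι _ _
  have key : ∀ c0, {c | (tt c0)⁻¹ * tt c ∈ SQ S (Set.range ι)}.Finite := by
    intro c0
    by_contra hinf
    have hinf' : {c | (tt c0)⁻¹ * tt c ∈ SQ S (Set.range ι)}.Infinite := hinf
    let u : Aˣ := el c0 ^ m
    let W : Submodule k A := ((Subalgebra.toSubmodule (⊥ : Subalgebra F A)).restrictScalars k).comap
      (LinearMap.mulLeft k ((u⁻¹ : Aˣ) : A))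
    have hW : ∀ w : A, w ∈ W ↔ ((u⁻¹ : Aˣ) : A) * w ∈ (⊥ : Subalgebra F A) := fun w => Iff.rfl
    have h1 := lemF W hm hinf' x (fun c hc => by
      rw [hW]
      have h2 : mkA ι (u⁻¹ * el c ^ m) = (((tt c0)⁻¹ * tt c : S) : PU D) := by
        rw [mkA_mul, mkA_inv, htt, htt]
        rfl
      have h3 := (mem_Z (F := F) ι h2).1 hc
      exact h3)
    obtain ⟨h2, h3⟩ := h1
    rw [hW, mul_one] at h2
    rw [hW] at h3
    apply hx
    have h4 : x ∈ Subalgebra.center F A := by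
      rw [Subalgebra.mem_center_iff]
      intro b
      have h5 : ((u⁻¹ : Aˣ) : A) * (b * x) = ((u⁻¹ : Aˣ) : A) * (x * b) := by
        rw [← mul_assoc, bot_comm h2 b, mul_assoc, ← bot_comm h3 b, mul_assoc]
      exact (Units.mul_right_inj u⁻¹).1 h5
    rwa [Algebra.IsCentral.center_eq_bot] at h4
  have hT : ∀ c, tt c ∈ SQ S (XF F ι ∪ {ι x}) := by
    intro c
    rw [mem_T (F := F) ι (htt c), Units.val_pow_eq_pow_val]
    have h1 : Commute (x + algebraMap k A c) x :=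
      (Commute.refl x).add_left (Algebra.commutes c x)
    exact (h1.pow_left m).eq
  obtain ⟨t, ht1, ht2⟩ := exists_seq_of_forall_finset_exists (fun s : S => ∃ c, tt c = s)
    (fun s s' => s⁻¹ * s' ∉ SQ S (Set.range ι)) (by
      intro s hs
      choose! c hc using hs
      have hfin : (⋃ y ∈ s, {d | (tt (c y))⁻¹ * tt d ∈ SQ S (Set.range ι)}).Finite :=
        s.finite_toSet.biUnion fun y _ => key (c y)
      obtain ⟨d, hd⟩ := hfin.infinite_compl.nonempty
      refine ⟨tt d, ⟨d, rfl⟩, fun y hy hcon => hd ?_⟩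
      rw [Set.mem_iUnion₂]
      refine ⟨y, hy, ?_⟩
      show (tt (c y))⁻¹ * tt d ∈ SQ S (Set.range ι)
      rw [hc y hy]
      exact hcon)
  refine ⟨t, fun i => ?_, ht2⟩
  obtain ⟨c, hc⟩ := ht1 i
  rw [← hc]
  exact hT c

omit [Algebra k F] [IsScalarTower k F A] in
theorem hcov {p : ℕ} (hp : p.Prime) (hdim : finrank F A = p ^ 2)
    (hι : ∀ d : D, (∀ f : F, d * ι (algebraMap F A f) = ι (algebraMap F A f) * d) →
    d ∈ ι.range) {x : A} (hx : x ∉ (⊥ : Subalgebra F A)) (s : S)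
    (hsT : s ∈ SQ S (XF F ι ∪ {ι x})) (hsZ : s ∉ SQ S (Set.range ι)) :
    ∃ Fs : Finset S, ∀ g ∈ SQ S (XF F ι), g⁻¹ * s * g ∈ SQ S (XF F ι ∪ {ι x}) →
      ∃ f ∈ Fs, g * f⁻¹ ∈ SQ S (XF F ι ∪ {ι x}) := by
  classical
  have := fd hp hdim
  obtain ⟨w, hw⟩ := lift_H ι hι (SQ_mono Set.subset_union_left hsT)
  have hwx := (mem_T (F := F) ι hw).1 hsT
  have hw0 : (w : A) ∉ (⊥ : Subalgebra F A) := fun h => hsZ ((mem_Z ι hw).2 h)
  obtain ⟨P, hP, -, hPw⟩ := exists_poly hp hdim hw0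
  have hfin := (roots_finite (Subalgebra.centralizer F {x}) (fun b hb c hc => by
    rw [Subalgebra.mem_centralizer_iff] at hb hc
    exact cen_comm hp hdim hx (hb x rfl) (hc x rfl)) hP.ne_zero).1
  let φ : A → S := fun r =>
    if h : ∃ g : S, ∃ a : Aˣ, mkA ι a = (g : PU D) ∧ ((a⁻¹ * w * a : Aˣ) : A) = r
    then h.choose else 1
  refine ⟨hfin.toFinset.image φ, fun g hg hgT => ?_⟩
  obtain ⟨a, ha⟩ := lift_H ι hι hg
  have h1 : mkA ι (a⁻¹ * w * a) = ((g⁻¹ * s * g : S) : PU D) := by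
    rw [mkA_mul, mkA_mul, mkA_inv, ha, hw]
    rfl
  have h2 := (mem_T (F := F) ι h1).1 hgT
  have h3 : ∃ g : S, ∃ b : Aˣ, mkA ι b = (g : PU D) ∧
      ((b⁻¹ * w * b : Aˣ) : A) = ((a⁻¹ * w * a : Aˣ) : A) := ⟨g, a, ha, rfl⟩
  have h4 : φ ((a⁻¹ * w * a : Aˣ) : A) = h3.choose := dif_pos h3
  refine ⟨φ ((a⁻¹ * w * a : Aˣ) : A), Finset.mem_image_of_mem φ ?_, ?_⟩
  · rw [Set.Finite.mem_toFinset]
    refine ⟨?_, ?_⟩
    · rw [Subalgebra.mem_centralizer_iff]
      intro y hy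
      rw [Set.mem_singleton_iff.1 hy]
      exact h2.symm
    · have h5 := aeval_conj P (w : A) a⁻¹ hPw
      rw [inv_inv] at h5
      rw [Units.val_mul, Units.val_mul]
      exact h5
  · rw [h4]
    obtain ⟨b, hb, hb'⟩ := h3.choose_spec
    have h5 : mkA ι (a * b⁻¹) = ((g * h3.choose⁻¹ : S) : PU D) := by
      rw [mkA_mul, mkA_inv, ha, hb]
      rfl
    rw [mem_T (F := F) ι h5]
    have h6 : b⁻¹ * w * b = a⁻¹ * w * a := Units.ext hb'
    have h7 : w * (a * b⁻¹) = (a * b⁻¹) * w := by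
      calc w * (a * b⁻¹) = a * (a⁻¹ * w * a) * b⁻¹ := by group
        _ = a * (b⁻¹ * w * b) * b⁻¹ := by rw [h6]
        _ = (a * b⁻¹) * w := by group
    exact cen_comm hp hdim hw0 (congrArg Units.val h7) hwx

/-- The main theorem. -/
theorem not_isRanked [Infinite k] [Algebra.IsCentral k D] [FiniteDimensional k D]
    (hι : ∀ d : D, (∀ f : F, d * ι (algebraMap F A f) = ι (algebraMap F A f) * d) → d ∈ ι.range)
    {p : ℕ} (hp : p.Prime) (hodd : p ≠ 2) (hdim : finrank F A = p ^ 2)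
    (hxy : p = 3 ∨ ∃ x y : Aˣ, ¬ Commute y x ∧ Commute x (y * x * y⁻¹))
    (hdeg : (finrank k D : k) ≠ 0) {m : ℕ} (hm : (m : k) ≠ 0)
    (hS : ∀ g, g ^ m ∈ S) (L : FirstOrder.Language) [L.Structure S] : ¬ IsRanked L S := by
  intro hR
  have h := hR.dg
  have hxy' : ∃ x y : Aˣ, ¬ Commute y x ∧ Commute x (y * x * y⁻¹) := by
    rcases hxy with rfl | hxy
    · refine exists_pair hdim ?_
      have := fd hp hdim
      have h1 : finrank k ι.range ∣ finrank k D := by
        rw [← (Subalgebra.topEquiv (R := k) (A := D)).toLinearEquiv.finrank_eq]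
        exact finrank_dvd le_top
      have h2 : finrank k ι.range = finrank k A :=
        (AlgEquiv.ofInjective ι ι.toRingHom.injective).toLinearEquiv.finrank_eq.symm
      rw [h2, ← Module.finrank_mul_finrank k F A, hdim] at h1
      intro h3
      have h4 : (3 : k) = 0 := by
        apply (algebraMap k F).injective
        rw [map_zero, map_ofNat]
        exact h3
      apply hdeg
      obtain ⟨c, hc⟩ := h1
      have h9 : (9 : k) = 0 := by
        have h9' : (9 : k) = 3 * 3 := by norm_num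
        rw [h9', h4, mul_zero]
      rw [hc]
      push_cast
      rw [h9]
      ring
    · exact hxy
  obtain ⟨x, y, hxy1, hxy2⟩ := hxy'
  have hx : (x : A) ∉ (⊥ : Subalgebra F A) := fun h => hxy1 (unit_comm h y).symm
  have hy : (y : A) ∉ (⊥ : Subalgebra F A) := fun h => hxy1 (unit_comm h x)
  have hD : ∀ X : Set D, ((univ : Set S).Definable₁ L) (SQ S X : Set S) := fun X =>
    SQ_def hdeg hm hS h X
  obtain ⟨t, ht, ht'⟩ := exists_seq (F := F) ι hm hS hx
  obtain ⟨u, hu, hu'⟩ := exists_seq (F := F) ι hm hS hy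
  have hZ : ∀ x : A, SQ S (Set.range ι) ≤ SQ S (XF F ι ∪ {ι x}) := by
    intro x
    apply SQ_mono
    rintro _ (⟨f, rfl⟩ | rfl)
    · exact ⟨_, rfl⟩
    · exact ⟨_, rfl⟩
  obtain ⟨g, hg, s, hs, hsZ, hgs⟩ := h.exists_conj (hD (XF F ι)) (hD (XF F ι ∪ {ι x}))
    (hD (XF F ι ∪ {ι y})) (hD (Set.range ι)) (SQ_mono Set.subset_union_left)
    (SQ_mono Set.subset_union_left) (hZ x) (hZ y) (by
      intro g hg z hz
      obtain ⟨a, ha⟩ := lift_H ι hι hg
      have hzH : z ∈ SQ S (XF F ι) := (SQ_mono Set.subset_union_left) (hZ x hz)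
      obtain ⟨b, hb⟩ := lift_H ι hι hzH
      have h1 := (mem_Z (F := F) ι hb).1 hz
      have h2 := unit_comm h1 a
      have h3 : mkA ι (a⁻¹ * b * a) = ((g⁻¹ * z * g : S) : PU D) := by
        rw [mkA_mul, mkA_mul, mkA_inv, ha, hb]
        rfl
      rw [mem_Z (F := F) ι h3]
      have h4 : a⁻¹ * b * a = b := by
        rw [mul_assoc, h2.eq, inv_mul_cancel_left]
      rw [h4]
      exact h1) t ht ht' u hu hu' (hcov ι hp hdim hι hx) (hcov ι hp hdim hι hy)
  obtain ⟨a, ha⟩ := lift_H ι hι hg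
  obtain ⟨w, hw⟩ := lift_H ι hι (SQ_mono Set.subset_union_left hs)
  have hwx := (mem_T (F := F) ι hw).1 hs
  have hw0 : (w : A) ∉ (⊥ : Subalgebra F A) := fun h => hsZ ((mem_Z ι hw).2 h)
  have h1 : mkA ι (a⁻¹ * w * a) = ((g⁻¹ * s * g : S) : PU D) := by
    rw [mkA_mul, mkA_mul, mkA_inv, ha, hw]
    rfl
  have h2 := (mem_T (F := F) ι h1).1 hgs
  have h3 : Commute w x := Units.ext hwx
  have h4 : Commute (a⁻¹ * w * a) y := Units.ext h2
  have h5 : Commute w (a * y * a⁻¹) := by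
    have h6 : (a⁻¹ * w * a) * y = y * (a⁻¹ * w * a) := h4
    show w * (a * y * a⁻¹) = a * y * a⁻¹ * w
    calc w * (a * y * a⁻¹) = a * ((a⁻¹ * w * a) * y) * a⁻¹ := by group
      _ = a * (y * (a⁻¹ * w * a)) * a⁻¹ := by rw [h6]
      _ = a * y * a⁻¹ * w := by group
  have h6 : Commute x (a * y * a⁻¹) := unit_cen hp hdim hw0 h3 h5
  have h7 : Commute y (a⁻¹ * x * a⁻¹⁻¹) := by
    have h8 : x * (a * y * a⁻¹) = a * y * a⁻¹ * x := h6
    show y * (a⁻¹ * x * a⁻¹⁻¹) = a⁻¹ * x * a⁻¹⁻¹ * y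
    calc y * (a⁻¹ * x * a⁻¹⁻¹) = a⁻¹ * (a * y * a⁻¹ * x) * a := by group
      _ = a⁻¹ * (x * (a * y * a⁻¹)) * a := by rw [h8]
      _ = a⁻¹ * x * a⁻¹⁻¹ * y := by group
  exact contr hp hdim hodd hxy1 hxy2 h7

end main

end Pool.Agent.H78.FMR
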