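import Pool.Agent.H78.FMR.Deg

/-!
# Tori in division algebras of odd prime degree

`contr`: the centralisers of `x` and `y` are not conjugate when `y` normalises but does not
centralise the centraliser of `x`.  `exists_pair`: such `x`, `y` exist in degree `3` (Wedderburn).
-/

set_option autoImplicit false

open Module Polynomial

namespace Pool.Agent.H78.FMR

theorem pow_quasi {M : Type*} [Monoid M] {z y η : M} (hη : ∀ m, Commute η m)
    (h : y * z = η * (z * y)) (j : ℕ) : (z * y) ^ j = η ^ (j.choose 2) * (z ^ j * y ^ j) := by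
  have h1 : ∀ j, y ^ j * z = η ^ j * (z * y ^ j) := by
    intro j
    induction j with
    | zero => simp
    | succ j ih =>
      calc y ^ (j + 1) * z = y * (y ^ j * z) := by rw [pow_succ', mul_assoc]
        _ = y * η ^ j * z * y ^ j := by rw [ih]; simp only [mul_assoc]
        _ = η ^ j * y * z * y ^ j := by rw [((hη y).pow_left j).eq]
        _ = η ^ j * (y * z) * y ^ j := by simp only [mul_assoc]
        _ = η ^ (j + 1) * (z * y ^ (j + 1)) := by
          rw [h, pow_succ, pow_succ' y]; simp only [mul_assoc]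
  induction j with
  | zero => simp
  | succ j ih =>
    have e : (j + 1).choose 2 = j.choose 2 + j := by
      rw [Nat.choose_succ_succ', Nat.choose_one_right, add_comm]
    calc (z * y) ^ (j + 1) = (z * y) ^ j * (z * y) := pow_succ _ _
      _ = η ^ (j.choose 2) * z ^ j * (y ^ j * z) * y := by rw [ih]; simp only [mul_assoc]
      _ = η ^ (j.choose 2) * (z ^ j * η ^ j) * z * y ^ j * y := by
        rw [h1]; simp only [mul_assoc]
      _ = η ^ (j.choose 2) * (η ^ j * z ^ j) * z * y ^ j * y := by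
        rw [((hη (z ^ j)).pow_left j).eq]
      _ = η ^ ((j + 1).choose 2) * (z ^ (j + 1) * y ^ (j + 1)) := by
        rw [e, pow_add, pow_succ z, pow_succ y]; simp only [mul_assoc]

variable {F A : Type*} [Field F] [DivisionRing A] [Algebra F A] [Algebra.IsCentral F A]
  {p : ℕ} (hp : p.Prime) (hdim : finrank F A = p ^ 2)

omit [Algebra.IsCentral F A] in
theorem unit_comm {a : Aˣ} (ha : (a : A) ∈ (⊥ : Subalgebra F A)) (b : Aˣ) : Commute a b :=
  Units.ext (bot_comm ha (b : A))

include hp hdim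

theorem unit_cen {a b c : Aˣ} (ha : (a : A) ∉ (⊥ : Subalgebra F A)) (hb : Commute a b)
    (hc : Commute a c) : Commute b c :=
  Units.ext (cen_comm hp hdim ha (congrArg Units.val hb.eq) (congrArg Units.val hc.eq))

theorem norm_cen {x y b : Aˣ} (hx : (x : A) ∉ (⊥ : Subalgebra F A))
    (hn : Commute x (y * x * y⁻¹)) (hb : Commute x b) : Commute x (y * b * y⁻¹) := by
  have hx1 : ((y * x * y⁻¹ : Aˣ) : A) ∉ (⊥ : Subalgebra F A) := by
    intro h
    have h1 := unit_comm h y
    have h2 : y * x * y⁻¹ = x := by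
      have h3 := h1.eq
      have h4 : y⁻¹ * (y * x * y⁻¹ * y) = y⁻¹ * (y * (y * x * y⁻¹)) := by rw [h3]
      simpa [mul_assoc] using h4.symm
    rw [h2] at h
    exact hx h
  exact unit_cen hp hdim hx1 hn.symm (hb.conj y)

/-- the centralisers of `x` and `y` are not conjugate -/
theorem contr (hodd : p ≠ 2) {x y g : Aˣ} (hxy : ¬ Commute y x)
    (hn : Commute x (y * x * y⁻¹)) (hg : Commute y (g * x * g⁻¹)) : False := by
  have hx : (x : A) ∉ (⊥ : Subalgebra F A) := fun h => hxy (unit_comm h y).symm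
  have hy : (y : A) ∉ (⊥ : Subalgebra F A) := fun h => hxy (unit_comm h x)
  have hyp : (y : A) ^ p ∈ (⊥ : Subalgebra F A) := by
    refine pow_mem hp hdim (x := (x : A)) (y := y) ?_ ?_
    · intro h
      exact hxy (Units.ext h)
    · exact congrArg Units.val hn.eq
  have hyp' : ∀ b : Aˣ, Commute (y ^ p) b := fun b =>
    unit_comm (a := y ^ p) (by rw [Units.val_pow_eq_pow_val]; exact hyp) b
  have hx' : ((g * x * g⁻¹ : Aˣ) : A) ∉ (⊥ : Subalgebra F A) := by
    intro h
    have h1 := unit_comm h g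
    have h2 : g * x * g⁻¹ = x := by
      have h3 := h1.eq
      have h4 : g⁻¹ * (g * x * g⁻¹ * g) = g⁻¹ * (g * (g * x * g⁻¹)) := by rw [h3]
      simpa [mul_assoc] using h4.symm
    rw [h2] at h
    exact hx h
  set y' : Aˣ := g * y * g⁻¹ with hy'
  -- `y'` normalises the centraliser of `y`
  have hb : Commute x (g⁻¹ * y * g) := by
    have := (hg.conj g⁻¹).symm
    simpa [mul_assoc] using this
  have h1 : Commute x (y * (g⁻¹ * y * g) * y⁻¹) := norm_cen hp hdim hx hn hb
  have h2 : Commute (g * x * g⁻¹) (y' * y * y'⁻¹) := by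
    have := h1.conj g
    have e : g * (y * (g⁻¹ * y * g) * y⁻¹) * g⁻¹ = y' * y * y'⁻¹ := by
      rw [hy']; group
    rwa [e] at this
  have h3 : Commute (y' * y * y'⁻¹) y := unit_cen hp hdim hx' h2 hg.symm
  -- the root of unity
  set ζ : Aˣ := y' * y * y'⁻¹ * y⁻¹ with hζ
  have hζp : ζ ^ p = 1 := by
    rw [hζ, (h3.inv_right).mul_pow, conj_pow, inv_pow, ← (hyp' y').eq, mul_assoc (y ^ p),
      mul_inv_cancel, mul_one, mul_inv_cancel]
  have hζb : (ζ : A) ∈ (⊥ : Subalgebra F A) := by
    refine root_unity hp hdim ?_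
    rw [← Units.val_pow_eq_pow_val, hζp, Units.val_one]
  have hyy' : ¬ Commute y' y := by
    intro h
    have h4 := unit_cen hp hdim hy h.symm hg
    exact hxy ((Commute.conj_iff g).1 h4)
  set z : Aˣ := y' * y⁻¹ with hz
  have hquasi : y * z = ζ⁻¹ * (z * y) := by
    rw [hz, hζ]; group
  have hcen : ∀ m : Aˣ, Commute ζ⁻¹ m := fun m => (unit_comm hζb m).inv_left
  have hpow := pow_quasi hcen hquasi p
  have hch : ζ⁻¹ ^ (p.choose 2) = 1 := by
    have h2p : 2 < p := lt_of_le_of_ne hp.two_le (Ne.symm hodd)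
    obtain ⟨q, hq⟩ := hp.dvd_choose_self (by norm_num) h2p
    rw [hq, pow_mul, inv_pow, hζp, inv_one, one_pow]
  have hzy : z * y = y' := by rw [hz]; group
  have hy'p : y' ^ p = y ^ p := by
    rw [hy', conj_pow, ← (hyp' g).eq, mul_assoc, mul_inv_cancel, mul_one]
  rw [hzy, hy'p, hch, one_mul] at hpow
  have hzp : z ^ p = 1 := by
    have : 1 * y ^ p = z ^ p * y ^ p := by rw [one_mul]; exact hpow
    exact (mul_right_cancel this).symm
  have hzb : (z : A) ∈ (⊥ : Subalgebra F A) := by
    refine root_unity hp hdim ?_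
    rw [← Units.val_pow_eq_pow_val, hzp, Units.val_one]
  apply hyy'
  rw [← hzy]
  exact (unit_comm hzb y).mul_left (Commute.refl y)

omit hp hdim in
theorem exists_noncomm {a : A} (ha : a ∉ (⊥ : Subalgebra F A)) : ∃ v : A, v * a ≠ a * v := by
  by_contra hcon
  push Not at hcon
  apply ha
  have h3 : a ∈ Subalgebra.center F A := by
    rw [Subalgebra.mem_center_iff]
    exact hcon
  rwa [Algebra.IsCentral.center_eq_bot] at h3

omit hp hdim in
/-- Wedderburn factorisation of a cubic -/
theorem wedderburn {a T S N : A} (ha : a ∉ (⊥ : Subalgebra F A)) (hT : T ∈ (⊥ : Subalgebra F A))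
    (hS : S ∈ (⊥ : Subalgebra F A)) (hN : N ∈ (⊥ : Subalgebra F A))
    (h : a ^ 3 - T * a ^ 2 + S * a - N = 0) :
    ∃ w b : A, w ≠ 0 ∧ w * a = b * w ∧ b ^ 2 + a * b + a ^ 2 - T * (a + b) + S = 0 := by
  obtain ⟨v, hv⟩ := exists_noncomm ha
  have hv0 : v ≠ 0 := by
    rintro rfl
    simp at hv
  obtain ⟨a', ha'⟩ : ∃ a', a' = v * a * v⁻¹ := ⟨_, rfl⟩
  have hva : v * a = a' * v := by rw [ha', mul_assoc, inv_mul_cancel₀ hv0, mul_one]
  have hd0 : a' - a ≠ 0 := by
    intro hc
    rw [sub_eq_zero.1 hc] at hva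
    exact hv hva
  obtain ⟨b, hb⟩ : ∃ b, b = (a' - a) * a' * (a' - a)⁻¹ := ⟨_, rfl⟩
  have hdb : (a' - a) * a' = b * (a' - a) := by
    rw [hb, mul_assoc ((a' - a) * a'), inv_mul_cancel₀ hd0, mul_one]
  refine ⟨(a' - a) * v, b, mul_ne_zero hd0 hv0, ?_, ?_⟩
  · rw [mul_assoc, hva, ← mul_assoc, hdb, mul_assoc]
  · have hv2 : v * a ^ 2 = a' ^ 2 * v := by
      rw [sq, ← mul_assoc, hva, mul_assoc, hva, ← mul_assoc, ← sq]
    have hv3 : v * a ^ 3 = a' ^ 3 * v := by
      rw [pow_succ, ← mul_assoc, hv2, mul_assoc, hva, ← mul_assoc, ← pow_succ]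
    have h' : a' ^ 3 - T * a' ^ 2 + S * a' - N = 0 := by
      have e : (a' ^ 3 - T * a' ^ 2 + S * a' - N) * v = v * (a ^ 3 - T * a ^ 2 + S * a - N) := by
        have t1 : v * (T * a ^ 2) = T * a' ^ 2 * v := by
          rw [← mul_assoc, ← bot_comm hT v, mul_assoc, hv2, mul_assoc]
        have t2 : v * (S * a) = S * a' * v := by
          rw [← mul_assoc, ← bot_comm hS v, mul_assoc, hva, mul_assoc]
        have t3 : v * N = N * v := (bot_comm hN v).symm
        rw [sub_mul, add_mul, sub_mul, mul_sub, mul_add, mul_sub, hv3, t1, t2, t3]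
      rw [h, mul_zero] at e
      exact (mul_eq_zero.1 e).resolve_right hv0
    have e1 : (a' - a) * (a' * a') = b * b * (a' - a) := by
      rw [← mul_assoc, hdb, mul_assoc, hdb, mul_assoc]
    have e2 : a * ((a' - a) * a') = a * b * (a' - a) := by rw [hdb, mul_assoc]
    have key : (b ^ 2 + a * b + a ^ 2 - T * (a + b) + S) * (a' - a) =
        (a' ^ 3 - T * a' ^ 2 + S * a' - N) - (a ^ 3 - T * a ^ 2 + S * a - N) := by
      calc (b ^ 2 + a * b + a ^ 2 - T * (a + b) + S) * (a' - a)
          = b * b * (a' - a) + a * b * (a' - a) + a ^ 2 * (a' - a) - T * (a * (a' - a)) -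
            T * (b * (a' - a)) + S * (a' - a) := by noncomm_ring
        _ = (a' - a) * (a' * a') + a * ((a' - a) * a') + a ^ 2 * (a' - a) - T * (a * (a' - a)) -
            T * ((a' - a) * a') + S * (a' - a) := by rw [e1, e2, hdb]
        _ = _ := by noncomm_ring
    rw [h, h', sub_zero] at key
    exact (mul_eq_zero.1 key).resolve_right hd0

omit hp hdim [Algebra.IsCentral F A] [Algebra F A] [Field F] in
theorem pair_of {a w b : A} (ha : a ≠ 0) (hw : w ≠ 0) (hwa : w * a = b * w) (hab : b ≠ a)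
    (hc : a * b = b * a) : ∃ x y : Aˣ, ¬ Commute y x ∧ Commute x (y * x * y⁻¹) := by
  refine ⟨Units.mk0 a ha, Units.mk0 w hw, ?_, ?_⟩
  · intro h
    have h1 : w * a = a * w := congrArg Units.val h.eq
    rw [hwa] at h1
    exact hab (mul_right_cancel₀ hw h1)
  · apply Units.ext
    simp only [Units.val_mul, Units.val_mk0, Units.val_inv_eq_inv_val]
    have h1 : w * a * w⁻¹ = b := by rw [hwa, mul_assoc, mul_inv_cancel₀ hw, mul_one]
    rw [h1, hc]

/-- noncommuting roots of a cubic give an element with central cube -/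
theorem cube_central {a b w T S N : A} (hT : T ∈ (⊥ : Subalgebra F A))
    (hS : S ∈ (⊥ : Subalgebra F A)) (hN : N ∈ (⊥ : Subalgebra F A))
    (h : a ^ 3 - T * a ^ 2 + S * a - N = 0) (hw : w ≠ 0) (hwa : w * a = b * w)
    (hR : b ^ 2 + a * b + a ^ 2 - T * (a + b) + S = 0) (hab : a * b ≠ b * a) :
    ∃ c : A, c ∉ (⊥ : Subalgebra F A) ∧ c ^ 3 ∈ (⊥ : Subalgebra F A) := by
  have ha0 : a ≠ 0 := by rintro rfl; simp at hab
  have hb0 : b ≠ 0 := by rintro rfl; simp at hab
  obtain ⟨e, he⟩ : ∃ e, e = T - a - b := ⟨_, rfl⟩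
  obtain ⟨c, hc⟩ : ∃ c, c = b * a - a * b := ⟨_, rfl⟩
  have hc0 : c ≠ 0 := by rw [hc]; exact fun h => hab (sub_eq_zero.1 h).symm
  have e1 : e * b = a ^ 2 - T * a + S := by
    have h1 : e * b - (a ^ 2 - T * a + S) = -(b ^ 2 + a * b + a ^ 2 - T * (a + b) + S) := by
      rw [he]; noncomm_ring
    rw [hR, neg_zero] at h1
    exact sub_eq_zero.1 h1
  have e2 : e * (b * a) = N := by
    rw [← mul_assoc, e1]
    have h1 : (a ^ 2 - T * a + S) * a - N = a ^ 3 - T * a ^ 2 + S * a - N := by noncomm_ring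
    rw [h] at h1
    exact sub_eq_zero.1 h1
  have e3 : b * a * e = N := by
    have hv : b * a ≠ 0 := mul_ne_zero hb0 ha0
    apply mul_right_cancel₀ hv
    rw [mul_assoc, e2, bot_comm hN]
  have e4 : c * a = b * c := by
    have h1 : c * a - b * c = -(b * a * e - N) - (b ^ 2 + a * b + a ^ 2 - T * (a + b) + S) * a +
        (a ^ 3 - T * a ^ 2 + S * a - N) + (b * a * T - T * (b * a)) := by
      rw [hc, he]; noncomm_ring
    rw [e3, hR, h, bot_comm hT (b * a)] at h1
    simp only [sub_self, neg_zero, zero_mul, add_zero] at h1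
    exact sub_eq_zero.1 h1
  have e5 : c * b = e * c := by
    have h1 : c * b - e * c = -(a * (b ^ 2 + a * b + a ^ 2 - T * (a + b) + S) -
        (b ^ 2 + a * b + a ^ 2 - T * (a + b) + S) * a) + (T * a - a * T) * b +
        (T * a - a * T) * a + (a * S - S * a) := by
      rw [hc, he]; noncomm_ring
    rw [hR, bot_comm hT a, bot_comm hS a] at h1
    simp only [sub_self, neg_zero, zero_mul, mul_zero, add_zero] at h1
    exact sub_eq_zero.1 h1
  have e6 : c * e = a * c := by
    have h1 : c * e = T * c - c * a - c * b := by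
      rw [he, bot_comm hT c]; noncomm_ring
    rw [h1, e4, e5, he]; noncomm_ring
  have hca : c ∉ (⊥ : Subalgebra F A) := by
    intro hcb
    have h1 := bot_comm hcb a
    rw [e4, bot_comm hcb b |>.symm] at h1
    have h2 : c * b = c * a := by rw [h1, bot_comm hcb a]
    have h3 := mul_left_cancel₀ hc0 h2
    rw [h3] at hab
    exact hab rfl
  refine ⟨c, hca, ?_⟩
  refine mem_bot_of_comm hp hdim (b := a) (c := b) ?_ ?_ hab
  · calc c ^ 3 * a = c * c * (c * a) := by noncomm_ring
      _ = c * (c * b) * c := by rw [e4]; noncomm_ring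
      _ = (c * e) * c * c := by rw [e5]; noncomm_ring
      _ = a * c ^ 3 := by rw [e6]; noncomm_ring
  · calc c ^ 3 * b = c * c * (c * b) := by noncomm_ring
      _ = c * (c * e) * c := by rw [e5]; noncomm_ring
      _ = (c * a) * c * c := by rw [e6]; noncomm_ring
      _ = b * c ^ 3 := by rw [e4]; noncomm_ring

omit hp hdim in
theorem no_double {a T S : A} (hdim3 : finrank F A = 3 ^ 2) (h3 : (3 : F) ≠ 0)
    (ha : a ∉ (⊥ : Subalgebra F A)) (hT : T ∈ (⊥ : Subalgebra F A))
    (hS : S ∈ (⊥ : Subalgebra F A)) (hR : a ^ 2 + a * a + a ^ 2 - T * (a + a) + S = 0) : False := by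
  obtain ⟨t, rfl⟩ := Algebra.mem_bot.1 hT
  obtain ⟨s, rfl⟩ := Algebra.mem_bot.1 hS
  have h1 : (X ^ 2 + (C (-(2 * t / 3)) * X + C (s / 3)) : F[X]).Monic := by
    refine monic_X_pow_add ?_
    refine lt_of_le_of_lt (degree_linear_le) (by norm_num)
  have h2 : aeval a (X ^ 2 + (C (-(2 * t / 3)) * X + C (s / 3)) : F[X]) = 0 := by
    have e : (algebraMap F A 3) * aeval a (X ^ 2 + (C (-(2 * t / 3)) * X + C (s / 3)) : F[X]) =
        a ^ 2 + a * a + a ^ 2 - algebraMap F A t * (a + a) + algebraMap F A s := by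
      rw [map_add, map_add, map_mul, map_pow, aeval_X, aeval_C, aeval_C, mul_add, mul_add,
        ← mul_assoc, ← map_mul, ← map_mul]
      have c1 : (3 : F) * -(2 * t / 3) = -(2 * t) := by field_simp
      have c2 : (3 : F) * (s / 3) = s := by field_simp
      rw [c1, c2, map_neg, map_mul, map_ofNat, map_ofNat]
      noncomm_ring
    rw [hR] at e
    rcases mul_eq_zero.1 e with h | h
    · exact absurd ((map_eq_zero _).1 h) h3
    · exact h
  have h4 := le_natDegree Nat.prime_three hdim3 ha h1 h2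
  have h5 : (X ^ 2 + (C (-(2 * t / 3)) * X + C (s / 3)) : F[X]).natDegree ≤ 2 := by
    refine natDegree_add_le_of_degree_le (natDegree_X_pow_le 2) ?_
    exact (natDegree_linear_le).trans (by norm_num)
  omega

omit hp hdim in
/-- in degree `3` there is a pair `x`, `y` as in `contr` (Wedderburn) -/
theorem exists_pair (hdim3 : finrank F A = 3 ^ 2) (h3 : (3 : F) ≠ 0) :
    ∃ x y : Aˣ, ¬ Commute y x ∧ Commute x (y * x * y⁻¹) := by
  have := fd Nat.prime_three hdim3
  obtain ⟨a, ha⟩ : ∃ a : A, a ∉ (⊥ : Subalgebra F A) := by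
    by_contra hcon
    push Not at hcon
    have h1 : (⊥ : Subalgebra F A) = ⊤ := eq_top_iff.2 fun a _ => hcon a
    rw [Subalgebra.bot_eq_top_iff_finrank_eq_one, hdim3] at h1
    norm_num at h1
  have ha0 : a ≠ 0 := by rintro rfl; exact ha (zero_mem _)
  obtain ⟨P, hP, hdeg, hPa⟩ := exists_poly Nat.prime_three hdim3 ha
  have hdeg2 := le_natDegree Nat.prime_three hdim3 ha hP hPa
  have hd : P.natDegree = 3 := le_antisymm hdeg hdeg2
  have hT : -algebraMap F A (P.coeff 2) ∈ (⊥ : Subalgebra F A) :=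
    neg_mem (Subalgebra.algebraMap_mem _ _)
  have hS : algebraMap F A (P.coeff 1) ∈ (⊥ : Subalgebra F A) := Subalgebra.algebraMap_mem _ _
  have hN : -algebraMap F A (P.coeff 0) ∈ (⊥ : Subalgebra F A) :=
    neg_mem (Subalgebra.algebraMap_mem _ _)
  have hcub : a ^ 3 - (-algebraMap F A (P.coeff 2)) * a ^ 2 + algebraMap F A (P.coeff 1) * a -
      (-algebraMap F A (P.coeff 0)) = 0 := by
    have h1 := hPa
    rw [aeval_eq_sum_range, hd] at h1
    simp only [Finset.sum_range_succ, Finset.sum_range_zero, zero_add] at h1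
    have h2 : P.coeff 3 = 1 := by rw [← hd]; exact hP
    rw [h2] at h1
    simp only [Algebra.smul_def, map_one, one_mul, pow_zero, mul_one, pow_one] at h1
    rw [← h1]
    noncomm_ring
  obtain ⟨w, b, hw, hwa, hR⟩ := wedderburn ha hT hS hN hcub
  by_cases hab : a * b = b * a
  · refine pair_of ha0 hw hwa ?_ hab
    rintro rfl
    exact no_double hdim3 h3 ha hT hS hR
  · obtain ⟨c, hc, hc3⟩ := cube_central Nat.prime_three hdim3 hT hS hN hcub hw hwa hR hab
    have hc0 : c ≠ 0 := by rintro rfl; exact hc (zero_mem _)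
    obtain ⟨w', b', hw', hwc, hR'⟩ := wedderburn (T := 0) (S := 0) hc (zero_mem _) (zero_mem _)
      hc3 (by rw [zero_mul, zero_mul, sub_zero, add_zero, sub_self])
    by_cases hcb : c * b' = b' * c
    · refine pair_of hc0 hw' hwc ?_ hcb
      rintro rfl
      exact no_double hdim3 h3 hc (zero_mem _) (zero_mem _) hR'
    · have hb0 : b' ≠ 0 := by rintro rfl; simp at hcb
      obtain ⟨z, hz⟩ : ∃ z, z = b' * c⁻¹ := ⟨_, rfl⟩
      obtain ⟨q, hq⟩ : ∃ q, q = c * z * c⁻¹ := ⟨_, rfl⟩
      have hzc : z * c = b' := by rw [hz, mul_assoc, inv_mul_cancel₀ hc0, mul_one]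
      have hqc : c * z = q * c := by rw [hq, mul_assoc (c * z), inv_mul_cancel₀ hc0, mul_one]
      have h1 : ((z + 1) * q + 1) * c * c = 0 := by
        have e : ((z + 1) * q + 1) * c * c = b' ^ 2 + c * b' + c ^ 2 - 0 * (c + b') + 0 := by
          calc ((z + 1) * q + 1) * c * c = (z + 1) * (q * c) * c + c * c := by noncomm_ring
            _ = z * c * (z * c) + c * (z * c) + c * c := by rw [← hqc]; noncomm_ring
            _ = _ := by rw [hzc]; noncomm_ring
        rw [e, hR']
      have h2 : (z + 1) * q + 1 = 0 := by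
        rcases mul_eq_zero.1 h1 with h | h
        · exact (mul_eq_zero.1 h).resolve_right hc0
        · exact absurd h hc0
      have h3' : z + 1 ≠ 0 := by
        intro h
        rw [h, zero_mul, zero_add] at h2
        exact one_ne_zero h2
      have h4 : q = -(z + 1)⁻¹ := by
        apply mul_left_cancel₀ h3'
        rw [mul_neg, mul_inv_cancel₀ h3']
        exact eq_neg_of_add_eq_zero_left h2
      have h5 : q * (z + 1) = -1 := by rw [h4, neg_mul, inv_mul_cancel₀ h3']
      have h6 : (z + 1) * q = -1 := eq_neg_of_add_eq_zero_left h2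
      have h7 : z * q = q * z := by
        have e : z * q = (z + 1) * q - q := by noncomm_ring
        rw [e, h6, ← h5]; noncomm_ring
      refine pair_of (a := z) (w := c) (b := q) ?_ hc0 hqc ?_ h7
      · rw [hz]; exact mul_ne_zero hb0 (inv_ne_zero hc0)
      · intro h
        apply hcb
        have e1 : c * z = z * c := by rw [hqc, h]
        rw [← hzc, ← mul_assoc, e1]

end Pool.Agent.H78.FMR
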