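import Pool.Agent.H78.FMR.Rank
import Pool.Agent.H78.FMR.Wed

/-!
# Definable centralizers in the group of units of a division algebra modulo the center
-/

set_option autoImplicit false

open Set Module

namespace Pool.Agent.H78.FMR

section poly

variable {k V : Type*} [Field k] [AddCommGroup V] [Module k V]

theorem poly_mem (W : Submodule k V) (n : ℕ) (v : ℕ → V) {C : Set k} (hC : C.Infinite)
    (h : ∀ c ∈ C, ∑ j ∈ Finset.range n, c ^ j • v j ∈ W) (j : ℕ) (hj : j < n) : v j ∈ W := by
  by_contra hcon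
  obtain ⟨f, hf, hfW⟩ := Submodule.exists_le_ker_of_notMem hcon
  have hP : (∑ i ∈ Finset.range n, Polynomial.C (f (v i)) * Polynomial.X ^ i) = 0 := by
    refine Polynomial.eq_zero_of_infinite_isRoot _ (hC.mono fun c hc => ?_)
    have h1 : f (∑ j ∈ Finset.range n, c ^ j • v j) = 0 := hfW (h c hc)
    show Polynomial.IsRoot _ c
    rw [Polynomial.IsRoot.def, Polynomial.eval_finsetSum, ← h1, map_sum]
    refine Finset.sum_congr rfl fun i _ => ?_
    rw [Polynomial.eval_mul, Polynomial.eval_C, Polynomial.eval_pow, Polynomial.eval_X, map_smul,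
      smul_eq_mul, mul_comm]
  have h2 := congrArg (fun P => Polynomial.coeff P j) hP
  simp only [Polynomial.finsetSum_coeff, Polynomial.coeff_C_mul, Polynomial.coeff_X_pow,
    Polynomial.coeff_zero] at h2
  rw [Finset.sum_eq_single j] at h2
  · simp only [if_true, mul_one] at h2
    exact hf h2
  · intro b _ hb
    rw [if_neg (Ne.symm hb), mul_zero]
  · intro h3
    exact absurd (Finset.mem_range.2 hj) h3

theorem lemF {A : Type*} [Ring A] [Algebra k A] (W : Submodule k A) {N : ℕ} (hN : (N : k) ≠ 0)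
    {C : Set k} (hC : C.Infinite) (a : A) (h : ∀ c ∈ C, (a + algebraMap k A c) ^ N ∈ W) :
    1 ∈ W ∧ a ∈ W := by
  have hN0 : N ≠ 0 := by
    rintro rfl
    simp at hN
  have h1 : ∀ c ∈ C, ∑ j ∈ Finset.range (N + 1), c ^ j • ((N.choose j : k) • a ^ (N - j)) ∈ W := by
    intro c hc
    have h2 := h c hc
    rw [add_comm, (show Commute (algebraMap k A c) a from Algebra.commutes c a).add_pow] at h2
    convert h2 using 1
    refine Finset.sum_congr rfl fun j _ => ?_
    rw [← map_pow, ← Algebra.smul_def, smul_mul_assoc, Nat.cast_smul_eq_nsmul, nsmul_eq_mul,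
      (Nat.cast_commute (N.choose j) (a ^ (N - j))).eq]
  constructor
  · have h2 := poly_mem W (N + 1) _ hC h1 N (Nat.lt_succ_self N)
    simpa using h2
  · have h2 := poly_mem W (N + 1) _ hC h1 (N - 1) (by omega)
    have h3 : N.choose (N - 1) = N := by
      rw [Nat.choose_symm (by omega : 1 ≤ N), Nat.choose_one_right]
    have h4 : N - (N - 1) = 1 := by omega
    rw [h3, h4, pow_one] at h2
    have h5 := W.smul_mem ((N : k)⁻¹) h2
    rwa [smul_smul, inv_mul_cancel₀ hN, one_smul] at h5

end poly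

section quot

variable {D : Type*} [DivisionRing D]

/-- the units modulo the center -/
abbrev PU (D : Type*) [DivisionRing D] : Type _ := Dˣ ⧸ Subgroup.center Dˣ

/-- the class of a unit -/
def mk (v : Dˣ) : PU D := QuotientGroup.mk' (Subgroup.center Dˣ) v

theorem mk_mul (v w : Dˣ) : mk (v * w) = mk v * mk w := map_mul _ v w

theorem mk_inv (v : Dˣ) : mk v⁻¹ = (mk v)⁻¹ := map_inv _ v

theorem mk_pow (v : Dˣ) (n : ℕ) : mk (v ^ n) = mk v ^ n := map_pow _ v n

theorem mk_surj (s : PU D) : ∃ v : Dˣ, mk v = s := QuotientGroup.mk'_surjective _ s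

theorem mk_eq {v w : Dˣ} (h : mk v = mk w) : ∃ z ∈ Subgroup.center Dˣ, v * z = w :=
  (QuotientGroup.mk'_eq_mk' _).1 h

theorem center_comm {z : Dˣ} (hz : z ∈ Subgroup.center Dˣ) (a : D) : (z : D) * a = a * z := by
  by_cases ha : a = 0
  · rw [ha, mul_zero, zero_mul]
  · have h := Subgroup.mem_center_iff.1 hz (Units.mk0 a ha)
    exact (congrArg Units.val h).symm

/-- the units commuting with `X` -/
def CU (X : Set D) : Subgroup Dˣ where
  carrier := {v | ∀ a ∈ X, (v : D) * a = a * v}
  mul_mem' := by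
    intro v w hv hw a ha
    rw [Units.val_mul, mul_assoc, hw a ha, ← mul_assoc, hv a ha, mul_assoc]
  one_mem' := by
    intro a _
    rw [Units.val_one, one_mul, mul_one]
  inv_mem' := by
    intro v hv a ha
    have h := hv a ha
    have h1 : ((v⁻¹ : Dˣ) : D) * ((v : D) * a) * ((v⁻¹ : Dˣ) : D) =
      ((v⁻¹ : Dˣ) : D) * (a * v) * ((v⁻¹ : Dˣ) : D) := by rw [h]
    rw [Units.inv_mul_cancel_left, ← mul_assoc, Units.mul_inv_cancel_right] at h1
    exact h1.symm

/-- the elements of `S` commuting with `X` -/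
def SQ (S : Subgroup (PU D)) (X : Set D) : Subgroup S :=
  ((CU X).map (QuotientGroup.mk' (Subgroup.center Dˣ))).subgroupOf S

theorem mem_SQ {S : Subgroup (PU D)} {X : Set D} {s : S} {v : Dˣ} (hv : mk v = (s : PU D)) :
    s ∈ SQ S X ↔ ∀ a ∈ X, (v : D) * a = a * v := by
  constructor
  · rintro ⟨v', hv', hs⟩ a ha
    have h1 : mk v' = mk v := hs.trans hv.symm
    obtain ⟨z, hz, rfl⟩ := mk_eq h1
    rw [Units.val_mul, mul_assoc, center_comm hz, ← mul_assoc, hv' a ha, mul_assoc]
  · intro h
    exact ⟨v, h, hv⟩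

theorem SQ_mono {S : Subgroup (PU D)} {X Y : Set D} (h : X ⊆ Y) : SQ S Y ≤ SQ S X := by
  intro s hs
  obtain ⟨v, hv⟩ := mk_surj (s : PU D)
  rw [mem_SQ hv] at hs ⊢
  exact fun a ha => hs a (h ha)

variable {k : Type*} [Field k] [Algebra k D] [Algebra.IsCentral k D] [FiniteDimensional k D]

omit [FiniteDimensional k D] in
theorem center_alg {z : Dˣ} (hz : z ∈ Subgroup.center Dˣ) : ∃ c : k, algebraMap k D c = z := by
  have h1 : (z : D) ∈ Subalgebra.center k D := by
    rw [Subalgebra.mem_center_iff]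
    intro b
    exact (center_comm hz b).symm
  rw [Algebra.IsCentral.center_eq_bot] at h1
  exact Algebra.mem_bot.1 h1

/-- elements commuting modulo the center: powers commute -/
theorem commute_pow (k : Type*) [Field k] [Algebra k D] [Algebra.IsCentral k D]
    [FiniteDimensional k D] {v y : Dˣ} (h : mk (v⁻¹ * y * v) = mk y) :
    (v : D) * (y : D) ^ finrank k D = (y : D) ^ finrank k D * v := by
  obtain ⟨z, hz, hzy⟩ := mk_eq h.symm
  obtain ⟨c, hc⟩ := center_alg (k := k) hz
  have h1 : Algebra.norm k (z : D) = 1 := by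
    have h2 : Algebra.norm k ((y * z : Dˣ) : D) = Algebra.norm k ((v⁻¹ * y * v : Dˣ) : D) := by
      rw [hzy]
    have hv : Algebra.norm k ((v⁻¹ : Dˣ) : D) * Algebra.norm k (v : D) = 1 := by
      rw [← map_mul, Units.inv_mul, map_one]
    have hy : Algebra.norm k ((y⁻¹ : Dˣ) : D) * Algebra.norm k (y : D) = 1 := by
      rw [← map_mul, Units.inv_mul, map_one]
    rw [Units.val_mul, Units.val_mul, Units.val_mul, map_mul, map_mul, map_mul] at h2
    have h3 : Algebra.norm k (y : D) * Algebra.norm k (z : D) = Algebra.norm k (y : D) := by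
      rw [h2]
      linear_combination (Algebra.norm k (y : D)) * hv
    linear_combination Algebra.norm k ((y⁻¹ : Dˣ) : D) * h3 + (1 - Algebra.norm k (z : D)) * hy
  rw [← hc, Algebra.norm_algebraMap] at h1
  have h2 : z ^ finrank k D = 1 := by
    apply Units.ext
    rw [Units.val_pow_eq_pow_val, ← hc, ← map_pow, h1, map_one, Units.val_one]
  have h3 : v⁻¹ * y ^ finrank k D * v = y ^ finrank k D := by
    have h4 : (v⁻¹ * y * v) ^ finrank k D = v⁻¹ * y ^ finrank k D * v := by
      have := conj_pow (a := v⁻¹) (b := y) (i := finrank k D)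
      rwa [inv_inv] at this
    have h5 : Commute y z := (Subgroup.mem_center_iff.1 hz y)
    rw [← h4, ← hzy, h5.mul_pow, h2, mul_one]
  have h4 : y ^ finrank k D * v = v * y ^ finrank k D := by
    calc y ^ finrank k D * v = v * (v⁻¹ * y ^ finrank k D * v) := by group
      _ = v * y ^ finrank k D := by rw [h3]
  exact (congrArg Units.val h4).symm

theorem DG.biInter {G : Type*} [Group G] {D1 : Set G → Prop} {D2 : Set (G × G) → Prop}
    (h : DG G D1 D2) {ι : Type*} (t : Finset ι) (A : ι → Set G) (hA : ∀ i ∈ t, D1 (A i)) :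
    D1 {g | ∀ i ∈ t, g ∈ A i} := by
  classical
  induction t using Finset.induction_on with
  | empty =>
    have e : {g : G | ∀ i ∈ (∅ : Finset ι), g ∈ A i} = ∅ᶜ := by
      ext g
      simp
    rw [e]
    exact h.compl1 _ h.empty1
  | insert i t hi ih =>
    have e : {g : G | ∀ j ∈ insert i t, g ∈ A j} = A i ∩ {g | ∀ j ∈ t, g ∈ A j} := by
      ext g
      simp
    rw [e]
    exact h.inter1 _ _ (hA i (Finset.mem_insert_self i t))
      (ih fun j hj => hA j (Finset.mem_insert_of_mem hj))

theorem DG.cent {G : Type*} [Group G] {D1 : Set G → Prop} {D2 : Set (G × G) → Prop}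
    (h : DG G D1 D2) (s : G) : D1 {b | b⁻¹ * s * b = s} :=
  h.fib _ (h.swap _ (h.conj _ (h.single s))) s

theorem SQ_def [Infinite k] (hdeg : (finrank k D : k) ≠ 0) {m : ℕ} (hm : (m : k) ≠ 0)
    {S : Subgroup (PU D)} (hS : ∀ g, g ^ m ∈ S) {D1 : Set S → Prop} {D2 : Set (S × S) → Prop}
    (h : DG S D1 D2) (X : Set D) : D1 (SQ S X : Set S) := by
  classical
  set N := m * finrank k D with hNdef
  have hN : (N : k) ≠ 0 := by
    rw [hNdef, Nat.cast_mul]
    exact mul_ne_zero hm hdeg
  set Y : Set D := {y | ∃ u : Dˣ, (∃ a ∈ X, ∃ c : k, (u : D) = a + algebraMap k D c) ∧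
    (u : D) ^ N = y} with hY
  obtain ⟨Y', hY', hspan⟩ := (Submodule.fg_span_iff_fg_span_finset_subset (R := k) Y).1
    (IsNoetherian.noetherian _)
  have hch : ∀ y ∈ Y, ∃ u : Dˣ, (∃ a ∈ X, ∃ c : k, (u : D) = a + algebraMap k D c) ∧
    (u : D) ^ N = y := fun y hy => hy
  choose! u hu using hch
  have e : (SQ S X : Set S) = {b : S | ∀ y ∈ Y',
      b ∈ {b : S | b⁻¹ * (⟨mk (u y) ^ m, hS _⟩ : S) * b = ⟨mk (u y) ^ m, hS _⟩}} := by
    ext b
    obtain ⟨v, hv⟩ := mk_surj (b : PU D)
    have hb : ∀ w : Dˣ, b⁻¹ * (⟨mk w ^ m, hS _⟩ : S) * b = ⟨mk w ^ m, hS _⟩ ↔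
        mk (v⁻¹ * w ^ m * v) = mk (w ^ m) := by
      intro w
      rw [Subtype.ext_iff]
      rw [mk_mul, mk_mul, mk_inv, mk_pow, hv]
      rfl
    constructor
    · intro hb1 y hy
      obtain ⟨⟨a, ha, c, hc⟩, -⟩ := hu y (hY' hy)
      have h1 := (mem_SQ hv).1 hb1 a ha
      have h2 : Commute (u y) v := by
        apply Units.ext
        rw [Units.val_mul, Units.val_mul, hc, add_mul, mul_add, h1, Algebra.commutes c (v : D)]
      show b⁻¹ * (⟨mk (u y) ^ m, hS _⟩ : S) * b = ⟨mk (u y) ^ m, hS _⟩
      rw [hb (u y)]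
      congr 1
      have h3 := (h2.pow_left m).eq
      rw [mul_assoc, h3, inv_mul_cancel_left]
    · intro hb1
      show b ∈ SQ S X
      rw [mem_SQ hv]
      intro a ha
      let W : Submodule k D :=
        { carrier := {x | (v : D) * x = x * v}
          add_mem' := by
            intro x y hx hy
            show (v : D) * (x + y) = (x + y) * v
            rw [mul_add, add_mul, hx, hy]
          zero_mem' := by
            show (v : D) * 0 = 0 * v
            rw [mul_zero, zero_mul]
          smul_mem' := by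
            intro c x hx
            show (v : D) * (c • x) = (c • x) * v
            rw [mul_smul_comm, smul_mul_assoc, hx] }
      have h1 : (Y' : Set D) ⊆ W := by
        intro y hy
        have h2 : mk (v⁻¹ * u y ^ m * v) = mk (u y ^ m) := (hb (u y)).1 (hb1 y hy)
        have h3 := commute_pow k h2
        rw [Units.val_pow_eq_pow_val, ← pow_mul, ← hNdef, (hu y (hY' hy)).2] at h3
        exact h3
      have h2 : Submodule.span k Y ≤ W := by
        rw [hspan]
        exact Submodule.span_le.2 h1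
      have hinf : {c : k | a + algebraMap k D c ≠ 0}.Infinite := by
        have h3 : {c : k | a + algebraMap k D c ≠ 0}ᶜ.Subsingleton := by
          intro c hc d hd
          have hc' : a + algebraMap k D c = 0 := not_not.1 hc
          have hd' : a + algebraMap k D d = 0 := not_not.1 hd
          exact (algebraMap k D).injective (add_left_cancel (hc'.trans hd'.symm))
        have h4 := h3.finite.infinite_compl
        rwa [compl_compl] at h4
      have h5 := lemF W hN hinf a (fun c hc => h2 (Submodule.subset_span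
        ⟨Units.mk0 _ hc, ⟨a, ha, c, rfl⟩, rfl⟩))
      exact h5.2
  rw [e]
  exact h.biInter Y' _ fun y _ => h.cent _

end quot

end Pool.Agent.H78.FMR
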