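import Mathlib

/-!
# Ranked groups: abstract theory

`RkGe Df d A`: the set `A` has rank at least `d` with respect to the class `Df` of definable sets.
`DG`: a group with a class of definable subsets of `G` and of `G × G` with a rank that is finite,
definable and additive.  Main result `exists_conj`: two generous subgroups have conjugate
elements.
-/

set_option autoImplicit false

open Set

namespace Pool.Agent.H78.FMR

/-- `A` has rank at least `d` -/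
def RkGe {X : Type*} (Df : Set X → Prop) : ℕ → Set X → Prop
  | 0, A => A.Nonempty
  | d + 1, A => ∃ f : ℕ → Set X, (∀ i, Df (f i)) ∧ (∀ i, f i ⊆ A) ∧
      Pairwise (Function.onFun Disjoint f) ∧ ∀ i, RkGe Df d (f i)

section basic

variable {X Y : Type*} {Df : Set X → Prop} {Dg : Set Y → Prop}

theorem RkGe.mono {d : ℕ} {A B : Set X} (h : A ⊆ B) (hA : RkGe Df d A) : RkGe Df d B := by
  cases d with
  | zero => exact Set.Nonempty.mono h hA
  | succ d =>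
    obtain ⟨f, h1, h2, h3, h4⟩ := hA
    exact ⟨f, h1, fun i => (h2 i).trans h, h3, h4⟩

theorem RkGe.pred {d : ℕ} {A : Set X} (hA : RkGe Df (d + 1) A) : RkGe Df d A := by
  induction d generalizing A with
  | zero =>
    obtain ⟨f, h1, h2, h3, h4⟩ := hA
    exact Set.Nonempty.mono (h2 0) (h4 0)
  | succ d ih =>
    obtain ⟨f, h1, h2, h3, h4⟩ := hA
    exact ⟨f, h1, h2, h3, fun i => ih (h4 i)⟩

theorem RkGe.of_le {d e : ℕ} (h : d ≤ e) {A : Set X} (hA : RkGe Df e A) : RkGe Df d A := by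
  induction h with
  | refl => exact hA
  | step _ ih => exact ih hA.pred

theorem RkGe.nonempty {d : ℕ} {A : Set X} (hA : RkGe Df d A) : A.Nonempty :=
  hA.of_le (Nat.zero_le d)

theorem RkGe.union (hI : ∀ A B, Df A → Df B → Df (A ∩ B)) {d : ℕ} {A B : Set X} (hA : Df A)
    (hB : Df B) (h : RkGe Df d (A ∪ B)) : RkGe Df d A ∨ RkGe Df d B := by
  induction d generalizing A B with
  | zero =>
    obtain ⟨x, hx | hx⟩ := h
    · exact Or.inl ⟨x, hx⟩
    · exact Or.inr ⟨x, hx⟩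
  | succ d ih =>
    obtain ⟨f, h1, h2, h3, h4⟩ := h
    have key : ∀ i, RkGe Df d (f i ∩ A) ∨ RkGe Df d (f i ∩ B) := by
      intro i
      refine ih (hI _ _ (h1 i) hA) (hI _ _ (h1 i) hB) ?_
      rw [← Set.inter_union_distrib_left, Set.inter_eq_left.2 (h2 i)]
      exact h4 i
    have aux : ∀ C : Set X, Df C → {i | RkGe Df d (f i ∩ C)}.Infinite → RkGe Df (d + 1) C := by
      intro C hC hinf
      have e := hinf.natEmbedding
      refine ⟨fun i => f (e i) ∩ C, fun i => hI _ _ (h1 _) hC, fun i => Set.inter_subset_right, ?_,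
        fun i => (e i).2⟩
      intro i j hij
      have : ((e i : ℕ)) ≠ (e j : ℕ) := by
        intro h
        exact hij (e.injective (Subtype.ext h))
      exact (h3 this).mono Set.inter_subset_left Set.inter_subset_left
    by_cases hinf : {i | RkGe Df d (f i ∩ A)}.Infinite
    · exact Or.inl (aux A hA hinf)
    · right
      refine aux B hB ?_
      rw [Set.not_infinite] at hinf
      have : {i | RkGe Df d (f i ∩ A)}ᶜ ⊆ {i | RkGe Df d (f i ∩ B)} := by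
        intro i hi
        exact (key i).resolve_left hi
      exact (hinf.infinite_compl).mono this

theorem RkGe.biUnion (hI : ∀ A B, Df A → Df B → Df (A ∩ B)) (hU : ∀ A B, Df A → Df B → Df (A ∪ B))
    (hE : Df ∅) {ι : Type*} (s : Finset ι) (f : ι → Set X) (hf : ∀ i ∈ s, Df (f i)) {d : ℕ}
    (h : RkGe Df d (⋃ i ∈ s, f i)) : ∃ i ∈ s, RkGe Df d (f i) := by
  classical
  have key : Df (⋃ i ∈ s, f i) ∧ (RkGe Df d (⋃ i ∈ s, f i) → ∃ i ∈ s, RkGe Df d (f i)) := by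
    clear h
    induction s using Finset.induction_on with
    | empty =>
      refine ⟨by simpa using hE, fun h => ?_⟩
      obtain ⟨x, hx⟩ := h.nonempty
      simp at hx
    | insert a s _ ih =>
      obtain ⟨ih1, ih2⟩ := ih fun i hi => hf i (Finset.mem_insert_of_mem hi)
      have e : (⋃ i ∈ insert a s, f i) = f a ∪ ⋃ i ∈ s, f i := Finset.set_biUnion_insert a s f
      rw [e]
      refine ⟨hU _ _ (hf a (Finset.mem_insert_self _ _)) ih1, fun h => ?_⟩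
      rcases RkGe.union hI (hf a (Finset.mem_insert_self _ _)) ih1 h with h | h
      · exact ⟨a, Finset.mem_insert_self _ _, h⟩
      · obtain ⟨i, hi, h⟩ := ih2 h
        exact ⟨i, Finset.mem_insert_of_mem hi, h⟩
  exact key.2 h

theorem RkGe.image {g : X → Y} (hg : Function.Injective g) (hD : ∀ A, Df A → Dg (g '' A)) {d : ℕ}
    {A : Set X} (h : RkGe Df d A) : RkGe Dg d (g '' A) := by
  induction d generalizing A with
  | zero => exact Set.Nonempty.image g h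
  | succ d ih =>
    obtain ⟨f, h1, h2, h3, h4⟩ := h
    refine ⟨fun i => g '' f i, fun i => hD _ (h1 i), fun i => Set.image_mono (h2 i), ?_,
      fun i => ih (h4 i)⟩
    intro i j hij
    exact (Set.disjoint_image_iff hg).2 (h3 hij)

/-- infinite descent inside a set gives a higher rank -/
theorem seq_lemma {ι : Type*} (P : ι → Prop) (S : ι → Set X) (n : ℕ)
    (step : ∀ a, P a → ∃ a', P a' ∧ S a' ⊆ S a ∧
      ∃ C, Df C ∧ C ⊆ S a ∧ Disjoint C (S a') ∧ RkGe Df n C)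
    (a0 : ι) (h0 : P a0) : RkGe Df (n + 1) (S a0) := by
  choose! nx hP hS C hC1 hC2 hC3 hC4 using step
  have hPk : ∀ k, P (nx^[k] a0) := by
    intro k
    induction k with
    | zero => exact h0
    | succ k ih => rw [Function.iterate_succ_apply']; exact hP _ ih
  have hanti : ∀ i j, i ≤ j → S (nx^[j] a0) ⊆ S (nx^[i] a0) := by
    intro i j hij
    induction hij with
    | refl => exact subset_rfl
    | step _ ih =>
      refine subset_trans ?_ ih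
      rw [Function.iterate_succ_apply']
      exact hS _ (hPk _)
  refine ⟨fun k => C (nx^[k] a0), fun k => hC1 _ (hPk k), fun k => (hC2 _ (hPk k)).trans ?_, ?_,
    fun k => hC4 _ (hPk k)⟩
  · exact hanti 0 k (Nat.zero_le k)
  · have key : ∀ i j, i < j → Disjoint (C (nx^[i] a0)) (C (nx^[j] a0)) := by
      intro i j hij
      have h1 : C (nx^[j] a0) ⊆ S (nx^[i + 1] a0) :=
        (hC2 _ (hPk j)).trans (hanti (i + 1) j hij)
      rw [Function.iterate_succ_apply'] at h1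
      exact (hC3 _ (hPk i)).mono_right h1
    intro i j hij
    rcases lt_or_gt_of_ne hij with h | h
    · exact key i j h
    · exact (key j i h).symm

end basic

/-- A group with a class `D1` of definable subsets, a class `D2` of definable sets of pairs, and
a finite, definable and additive rank. -/
structure DG (G : Type*) [Group G] (D1 : Set G → Prop) (D2 : Set (G × G) → Prop) : Prop where
  inter1 : ∀ A B, D1 A → D1 B → D1 (A ∩ B)
  compl1 : ∀ A, D1 A → D1 Aᶜ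
  single : ∀ g, D1 {g}
  inter2 : ∀ A B, D2 A → D2 B → D2 (A ∩ B)
  compl2 : ∀ A, D2 A → D2 Aᶜ
  swap : ∀ E, D2 E → D2 {p | (p.2, p.1) ∈ E}
  fib : ∀ E, D2 E → ∀ a, D1 {b | (a, b) ∈ E}
  proj : ∀ E, D2 E → D1 {a | ∃ b, (a, b) ∈ E}
  snd : ∀ A, D1 A → D2 {p | p.2 ∈ A}
  mul : ∀ A, D1 A → D2 {p | p.1 * p.2 ∈ A}
  conj : ∀ A, D1 A → D2 {p | p.1⁻¹ * p.2 * p.1 ∈ A}
  fin : ∃ N, ¬ RkGe D1 N univ
  rkdef : ∀ E, D2 E → ∀ d, D1 {a | RkGe D1 d {b | (a, b) ∈ E}}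
  add : ∀ E, D2 E → ∀ e, (∀ a, (∃ b, (a, b) ∈ E) →
    RkGe D1 e {b | (a, b) ∈ E} ∧ ¬ RkGe D1 (e + 1) {b | (a, b) ∈ E}) →
    ∀ d, (RkGe D2 (d + e) E ↔ RkGe D1 d {a | ∃ b, (a, b) ∈ E})

namespace DG

variable {G : Type*} [Group G] {D1 : Set G → Prop} {D2 : Set (G × G) → Prop} (h : DG G D1 D2)

include h

theorem union1 (A B : Set G) (hA : D1 A) (hB : D1 B) : D1 (A ∪ B) := by
  have := h.compl1 _ (h.inter1 _ _ (h.compl1 _ hA) (h.compl1 _ hB))
  rwa [← Set.compl_union, compl_compl] at this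

theorem union2 (A B : Set (G × G)) (hA : D2 A) (hB : D2 B) : D2 (A ∪ B) := by
  have := h.compl2 _ (h.inter2 _ _ (h.compl2 _ hA) (h.compl2 _ hB))
  rwa [← Set.compl_union, compl_compl] at this

theorem empty1 : D1 ∅ := by
  have := h.inter1 _ _ (h.single 1) (h.compl1 _ (h.single 1))
  rwa [Set.inter_compl_self] at this

theorem univ1 : D1 univ := by
  have := h.compl1 _ h.empty1
  rwa [Set.compl_empty] at this

theorem empty2 : D2 ∅ := by
  have := h.snd _ h.empty1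
  simpa using this

theorem diff1 (A B : Set G) (hA : D1 A) (hB : D1 B) : D1 (A \ B) := h.inter1 _ _ hA (h.compl1 _ hB)

theorem fst (A : Set G) (hA : D1 A) : D2 {p | p.1 ∈ A} := h.swap _ (h.snd _ hA)

theorem left (A : Set G) (hA : D1 A) (g : G) : D1 {b | g * b ∈ A} := h.fib _ (h.mul _ hA) g

theorem right (A : Set G) (hA : D1 A) (g : G) : D1 {b | b * g ∈ A} :=
  h.fib _ (h.swap _ (h.mul _ hA)) g

theorem cnj (A : Set G) (hA : D1 A) (g : G) : D1 {b | g⁻¹ * b * g ∈ A} := h.fib _ (h.conj _ hA) g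

theorem rk_left {d : ℕ} {A : Set G} (hA : RkGe D1 d A) (g : G) : RkGe D1 d {b | g * b ∈ A} := by
  have e : ∀ B : Set G, {b | g * b ∈ B} = (fun x => g⁻¹ * x) '' B := by
    intro B
    ext b
    simp only [Set.mem_ofPred_eq, Set.mem_image]
    constructor
    · intro hb
      exact ⟨_, hb, by group⟩
    · rintro ⟨x, hx, rfl⟩
      simpa using hx
  rw [e]
  refine hA.image (mul_right_injective g⁻¹) fun B hB => ?_
  rw [← e]
  exact h.left B hB g

theorem rk_right {d : ℕ} {A : Set G} (hA : RkGe D1 d A) (g : G) : RkGe D1 d {b | b * g ∈ A} := by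
  have e : ∀ B : Set G, {b | b * g ∈ B} = (fun x => x * g⁻¹) '' B := by
    intro B
    ext b
    simp only [Set.mem_ofPred_eq, Set.mem_image]
    constructor
    · intro hb
      exact ⟨_, hb, by group⟩
    · rintro ⟨x, hx, rfl⟩
      simpa using hx
  rw [e]
  refine hA.image (mul_left_injective g⁻¹) fun B hB => ?_
  rw [← e]
  exact h.right B hB g

theorem rk_cnj {d : ℕ} {A : Set G} (hA : RkGe D1 d A) (g : G) :
    RkGe D1 d {b | g⁻¹ * b * g ∈ A} := by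
  have h1 := h.rk_right hA g
  have h2 := h.rk_left h1 g⁻¹
  exact h2

theorem rk_swap {d : ℕ} {E : Set (G × G)} (hE : RkGe D2 d E) :
    RkGe D2 d {p | (p.2, p.1) ∈ E} := by
  have e : ∀ B : Set (G × G), {p : G × G | (p.2, p.1) ∈ B} = Prod.swap '' B := by
    intro B
    rw [Set.image_swap_eq_preimage_swap]
    rfl
  rw [e]
  refine hE.image Prod.swap_injective fun B hB => ?_
  rw [← e]
  exact h.swap B hB

/-- additivity, lower bound -/
theorem add_ge {E : Set (G × G)} (hE : D2 E) {B : Set G} (hB : D1 B) {d e : ℕ} (hd : RkGe D1 d B)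
    (he : ∀ a ∈ B, RkGe D1 e {b | (a, b) ∈ E}) : RkGe D2 (d + e) E := by
  classical
  obtain ⟨N, hN⟩ := h.fin
  set Bj : ℕ → Set G := fun j => B ∩ {a | RkGe D1 j {b | (a, b) ∈ E}} ∩
    {a | RkGe D1 (j + 1) {b | (a, b) ∈ E}}ᶜ with hBj
  have hBjD : ∀ j, D1 (Bj j) := fun j =>
    h.inter1 _ _ (h.inter1 _ _ hB (h.rkdef E hE j)) (h.compl1 _ (h.rkdef E hE (j + 1)))
  have hcov : B ⊆ ⋃ j ∈ Finset.range N, Bj j := by
    intro a ha
    have h0 : RkGe D1 0 {b | (a, b) ∈ E} := (he a ha).of_le (Nat.zero_le _)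
    have hN' : ¬ RkGe D1 N {b | (a, b) ∈ E} := fun hc => hN (hc.mono (Set.subset_univ _))
    have hex : ∃ j, ¬ RkGe D1 j {b | (a, b) ∈ E} := ⟨N, hN'⟩
    have hf := Nat.find_spec hex
    have hf0 : Nat.find hex ≠ 0 := fun h0' => by rw [h0'] at hf; exact hf h0
    have hfN : Nat.find hex ≤ N := Nat.find_min' hex hN'
    have hfm : RkGe D1 (Nat.find hex - 1) {b | (a, b) ∈ E} := by
      by_contra hc
      exact Nat.find_min hex (by omega) hc
    rw [Set.mem_iUnion₂]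
    refine ⟨Nat.find hex - 1, Finset.mem_range.2 (by omega), ⟨ha, hfm⟩, ?_⟩
    rw [Set.mem_compl_iff, Set.mem_ofPred_eq, Nat.sub_add_cancel (by omega)]
    exact hf
  obtain ⟨j, hj, hdj⟩ := RkGe.biUnion h.inter1 h.union1 h.empty1 (Finset.range N) Bj
    (fun j _ => hBjD j) (hd.mono hcov)
  set Ej : Set (G × G) := E ∩ {p | p.1 ∈ Bj j} with hEj
  have hEjD : D2 Ej := h.inter2 _ _ hE (h.fst _ (hBjD j))
  have hfibj : ∀ a ∈ Bj j, {b | (a, b) ∈ Ej} = {b | (a, b) ∈ E} := by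
    intro a ha
    ext b
    simp only [hEj, Set.mem_ofPred_eq, Set.mem_inter_iff]
    exact ⟨fun hh => hh.1, fun hh => ⟨hh, ha⟩⟩
  have hadd := h.add Ej hEjD j (fun a ha => by
    obtain ⟨b, hb⟩ := ha
    have haB : a ∈ Bj j := hb.2
    rw [hfibj a haB]
    exact ⟨haB.1.2, haB.2⟩) d
  have hproj : {a | ∃ b, (a, b) ∈ Ej} = Bj j := by
    ext a
    constructor
    · rintro ⟨b, hb⟩
      exact hb.2
    · intro ha
      obtain ⟨b, hb⟩ := (he a ha.1.1).nonempty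
      exact ⟨b, hb, ha⟩
  rw [hproj] at hadd
  have h1 : RkGe D2 (d + j) Ej := hadd.2 hdj
  have hej : e ≤ j := by
    obtain ⟨a, ha⟩ := hdj.nonempty
    by_contra hc
    exact ha.2 ((he a ha.1.1).of_le (by omega))
  exact (h1.of_le (by omega)).mono Set.inter_subset_left

/-- additivity, upper bound -/
theorem add_lt {E : Set (G × G)} (hE : D2 E) {d e : ℕ} (hd : RkGe D2 (d + e) E)
    (he : ∀ a, ¬ RkGe D1 e {b | (a, b) ∈ E}) : RkGe D1 (d + 1) {a | ∃ b, (a, b) ∈ E} := by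
  classical
  set Bj : ℕ → Set G := fun j => {a | RkGe D1 j {b | (a, b) ∈ E}} ∩
    {a | RkGe D1 (j + 1) {b | (a, b) ∈ E}}ᶜ with hBj
  have hBjD : ∀ j, D1 (Bj j) := fun j =>
    h.inter1 _ _ (h.rkdef E hE j) (h.compl1 _ (h.rkdef E hE (j + 1)))
  have hcov : E ⊆ ⋃ j ∈ Finset.range e, E ∩ {p | p.1 ∈ Bj j} := by
    rintro ⟨a, b⟩ hab
    have h0 : RkGe D1 0 {b | (a, b) ∈ E} := ⟨b, hab⟩
    have hex : ∃ j, ¬ RkGe D1 j {b | (a, b) ∈ E} := ⟨e, he a⟩
    have hf := Nat.find_spec hex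
    have hf0 : Nat.find hex ≠ 0 := fun h0' => by rw [h0'] at hf; exact hf h0
    have hfN : Nat.find hex ≤ e := Nat.find_min' hex (he a)
    have hfm : RkGe D1 (Nat.find hex - 1) {b | (a, b) ∈ E} := by
      by_contra hc
      exact Nat.find_min hex (by omega) hc
    rw [Set.mem_iUnion₂]
    refine ⟨Nat.find hex - 1, Finset.mem_range.2 (by omega), hab, hfm, ?_⟩
    rw [Set.mem_compl_iff, Set.mem_ofPred_eq, Nat.sub_add_cancel (by omega)]
    exact hf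
  obtain ⟨j, hj, hdj⟩ := RkGe.biUnion h.inter2 h.union2 h.empty2 (Finset.range e)
    (fun j => E ∩ {p | p.1 ∈ Bj j}) (fun j _ => h.inter2 _ _ hE (h.fst _ (hBjD j)))
    (hd.mono hcov)
  rw [Finset.mem_range] at hj
  have hadd := h.add (E ∩ {p | p.1 ∈ Bj j}) (h.inter2 _ _ hE (h.fst _ (hBjD j))) j
    (fun a ha => by
      obtain ⟨b, hb⟩ := ha
      have haB : a ∈ Bj j := hb.2
      have e1 : {b | (a, b) ∈ E ∩ {p | p.1 ∈ Bj j}} = {b | (a, b) ∈ E} := by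
        ext b
        exact ⟨fun hh => hh.1, fun hh => ⟨hh, haB⟩⟩
      rw [e1]
      exact ⟨haB.1, haB.2⟩) (d + e - j)
  have e2 : d + e - j + j = d + e := by omega
  rw [e2] at hadd
  refine ((hadd.1 hdj).of_le (by omega)).mono ?_
  rintro a ⟨b, hb⟩
  exact ⟨b, hb.1⟩

theorem add_le {E : Set (G × G)} (hE : D2 E) {d e : ℕ} (hd : RkGe D2 (d + e) E)
    (he : ∀ a, ¬ RkGe D1 (e + 1) {b | (a, b) ∈ E}) : RkGe D1 d {a | ∃ b, (a, b) ∈ E} := by
  cases d with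
  | zero =>
    obtain ⟨⟨a, b⟩, hab⟩ := hd.nonempty
    exact ⟨a, b, hab⟩
  | succ d =>
    refine h.add_lt hE (e := e + 1) ?_ he
    have : d + (e + 1) = d + 1 + e := by ring
    rw [this]
    exact hd

/-- many translates of one large set meet another large set in a large set -/
theorem translates {n : ℕ} {G0 : Subgroup G} (hn : ¬ RkGe D1 (n + 1) (G0 : Set G)) {A1 A2 : Set G}
    (h1 : D1 A1) (h2 : D1 A2) (h1' : A1 ⊆ G0) (h2' : A2 ⊆ G0) (r1 : RkGe D1 n A1)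
    (r2 : RkGe D1 n A2) : RkGe D1 n {x | RkGe D1 n {y | y ∈ A2 ∧ x * y ∈ A1}} := by
  set W : Set (G × G) := {p | p.2 ∈ A2} ∩ {p | p.1 * p.2 ∈ A1} with hW
  have hWD : D2 W := h.inter2 _ _ (h.snd _ h2) (h.mul _ h1)
  have hfib : ∀ x, {y | (x, y) ∈ W} = {y | y ∈ A2 ∧ x * y ∈ A1} := fun x => rfl
  have hrk : RkGe D2 (n + n) W := by
    have h3 : RkGe D2 (n + n) {p : G × G | (p.2, p.1) ∈ W} := by
      refine h.add_ge (h.swap _ hWD) h2 r2 fun a ha => ?_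
      refine (h.rk_right r1 a).mono ?_
      intro x hx
      exact ⟨ha, hx⟩
    have h4 := h.rk_swap h3
    exact h4
  set B : Set G := {x | RkGe D1 n {y | y ∈ A2 ∧ x * y ∈ A1}} with hB
  have hBD : D1 B := by
    have := h.rkdef W hWD n
    exact this
  have hcov : W = (W ∩ {p | p.1 ∈ B}) ∪ (W ∩ {p | p.1 ∈ Bᶜ}) := by
    ext p
    by_cases hp : p.1 ∈ B
    · simp [hp]
    · simp [hp]
  rw [hcov] at hrk
  have hfG : ∀ x y, (x, y) ∈ W → x ∈ G0 ∧ y ∈ G0 := by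
    intro x y hxy
    have a1 : y ∈ G0 := h2' hxy.1
    have a2 : x * y ∈ G0 := h1' hxy.2
    exact ⟨(Subgroup.mul_mem_cancel_right G0 a1).1 a2, a1⟩
  rcases RkGe.union h.inter2 (h.inter2 _ _ hWD (h.fst _ hBD))
    (h.inter2 _ _ hWD (h.fst _ (h.compl1 _ hBD))) hrk with hc | hc
  · have h5 := h.add_le (h.inter2 _ _ hWD (h.fst _ hBD)) hc (fun a ha => hn (ha.mono (by
      intro y hy
      exact (hfG a y hy.1).2)))
    refine h5.mono ?_
    rintro a ⟨b, hb⟩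
    exact hb.2
  · exfalso
    have h5 := h.add_lt (h.inter2 _ _ hWD (h.fst _ (h.compl1 _ hBD))) hc (fun a ha => by
      obtain ⟨y, hy⟩ := ha.nonempty
      exact hy.2 (ha.mono (fun z hz => hz.1)))
    refine hn (h5.mono ?_)
    rintro a ⟨b, hb⟩
    exact (hfG a b hb.1).1

/-- no two disjoint definable subsets of rank `≥ n` -/
def Deg1 (_ : DG G D1 D2) (n : ℕ) (A : Set G) : Prop :=
  ∀ B C, D1 B → D1 C → B ⊆ A → C ⊆ A → Disjoint B C → RkGe D1 n B → RkGe D1 n C → False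

theorem exists_deg1 {n : ℕ} {B : Set G} (hB : D1 B) (r : RkGe D1 n B) (r' : ¬ RkGe D1 (n + 1) B) :
    ∃ A ⊆ B, D1 A ∧ RkGe D1 n A ∧ h.Deg1 n A := by
  by_contra hcon
  push Not at hcon
  refine r' (seq_lemma (fun A : Set G => A ⊆ B ∧ D1 A ∧ RkGe D1 n A) (fun A => A) n ?_ B
    ⟨subset_rfl, hB, r⟩)
  rintro A ⟨h1, h2, h3⟩
  have h4 := hcon A h1 h2 h3
  unfold Deg1 at h4
  push Not at h4
  obtain ⟨A', C, h5, h6, h7, h8, h9, h10, h11, -⟩ := h4
  exact ⟨A', ⟨h7.trans h1, h5, h10⟩, h7, C, h6, h8, h9.symm, h11⟩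

theorem Deg1.trans {n : ℕ} {A B C : Set G} (hA : D1 A) (hB : D1 B) (hC : D1 C)
    (hdeg : h.Deg1 n B) (h1 : RkGe D1 n (A ∩ B)) (h2 : RkGe D1 n (B ∩ C)) :
    RkGe D1 n (A ∩ C) := by
  have e : A ∩ B = (A ∩ B ∩ C) ∪ ((A ∩ B) \ C) := (Set.inter_union_sdiff _ _).symm
  rw [e] at h1
  rcases RkGe.union h.inter1 (h.inter1 _ _ (h.inter1 _ _ hA hB) hC)
    (h.diff1 _ _ (h.inter1 _ _ hA hB) hC) h1 with h3 | h3
  · exact h3.mono fun x hx => ⟨hx.1.1, hx.2⟩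
  · exfalso
    refine hdeg ((A ∩ B) \ C) (B ∩ C) (h.diff1 _ _ (h.inter1 _ _ hA hB) hC) (h.inter1 _ _ hB hC)
      (fun x hx => hx.1.2) (fun x hx => hx.1) ?_ h3 h2
    rw [Set.disjoint_left]
    intro x hx hx'
    exact hx.2 hx'.2

theorem Deg1.left {n : ℕ} {A : Set G} (hdeg : h.Deg1 n A) (x : G) :
    h.Deg1 n {y | x * y ∈ A} := by
  intro B C hB hC hB' hC' hd rB rC
  refine hdeg {b | x⁻¹ * b ∈ B} {b | x⁻¹ * b ∈ C} (h.left _ hB _) (h.left _ hC _) ?_ ?_ ?_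
    (h.rk_left rB _) (h.rk_left rC _)
  · intro b hb
    have := hB' hb
    simpa using this
  · intro b hb
    have := hC' hb
    simpa using this
  · rw [Set.disjoint_left] at hd ⊢
    intro b hb hb'
    exact hd hb hb'

/-- minimality: `G0` has no proper definable subgroup of the same rank -/
def Conn (_ : DG G D1 D2) (n : ℕ) (G0 : Subgroup G) : Prop :=
  ∀ K : Subgroup G, D1 (K : Set G) → K ≤ G0 → RkGe D1 n (K : Set G) → K = G0

theorem stab {n : ℕ} {G0 : Subgroup G} (hG : D1 (G0 : Set G)) (hn : ¬ RkGe D1 (n + 1) (G0 : Set G))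
    (hconn : h.Conn n G0) {A : Set G} (hA : D1 A) (hAG : A ⊆ G0) (r : RkGe D1 n A)
    (hdeg : h.Deg1 n A) : ∀ x ∈ G0, RkGe D1 n (A ∩ {y | x * y ∈ A}) := by
  set S : Set G := {x | RkGe D1 n (A ∩ {y | x * y ∈ A})} with hS
  have hSD : D1 S := by
    have := h.rkdef ({p | p.2 ∈ A} ∩ {p | p.1 * p.2 ∈ A})
      (h.inter2 _ _ (h.snd _ hA) (h.mul _ hA)) n
    exact this
  have hSr : RkGe D1 n S := h.translates hn hA hA hAG hAG r r
  have hSG : ∀ x ∈ S, x ∈ G0 := by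
    intro x hx
    obtain ⟨y, hy1, hy2⟩ := RkGe.nonempty hx
    exact (Subgroup.mul_mem_cancel_right G0 (hAG hy1)).1 (hAG hy2)
  let K : Subgroup G :=
    { carrier := S
      one_mem' := by
        show RkGe D1 n (A ∩ {y | 1 * y ∈ A})
        refine r.mono fun y hy => ⟨hy, ?_⟩
        simpa using hy
      mul_mem' := by
        intro x x' hx hx'
        show RkGe D1 n (A ∩ {y | x * x' * y ∈ A})
        refine Deg1.trans h hA (h.left _ hA x') (h.left _ hA (x * x')) (Deg1.left h hdeg x') hx' ?_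
        have := h.rk_left hx x'
        refine this.mono fun y hy => ⟨hy.1, ?_⟩
        have h3 : x * (x' * y) ∈ A := hy.2
        rwa [← mul_assoc] at h3
      inv_mem' := by
        intro x hx
        show RkGe D1 n (A ∩ {y | x⁻¹ * y ∈ A})
        have := h.rk_left hx x⁻¹
        refine this.mono fun y hy => ⟨?_, hy.1⟩
        have h3 : x * (x⁻¹ * y) ∈ A := hy.2
        simpa using h3 }
  have hK : K = G0 := hconn K hSD hSG hSr
  intro x hx
  rw [← hK] at hx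
  exact hx

/-- in a connected group two large definable sets meet -/
theorem meet {n : ℕ} {G0 : Subgroup G} (hG : D1 (G0 : Set G)) (hn : ¬ RkGe D1 (n + 1) (G0 : Set G))
    (hconn : h.Conn n G0) {A1 A2 : Set G} (h1 : D1 A1) (h2 : D1 A2) (h1' : A1 ⊆ G0)
    (h2' : A2 ⊆ G0) (r1 : RkGe D1 n A1) (r2 : RkGe D1 n A2) : (A1 ∩ A2).Nonempty := by
  obtain ⟨B1, b1, b2, b3, b4⟩ := h.exists_deg1 h1 r1 (fun hc => hn (hc.mono h1'))
  obtain ⟨B2, c1, c2, c3, c4⟩ := h.exists_deg1 h2 r2 (fun hc => hn (hc.mono h2'))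
  have ht := h.translates hn b2 c2 (b1.trans h1') (c1.trans h2') b3 c3
  obtain ⟨x, hx⟩ := ht.nonempty
  have hxG : x ∈ G0 := by
    obtain ⟨y, hy1, hy2⟩ := RkGe.nonempty hx
    exact (Subgroup.mul_mem_cancel_right G0 (h2' (c1 hy1))).1 (h1' (b1 hy2))
  have hst := h.stab hG hn hconn b2 (b1.trans h1') b3 b4 x hxG
  have hf : RkGe D1 n (B2 ∩ B1) := by
    refine Deg1.trans h c2 (h.left _ b2 x) b2 (Deg1.left h b4 x) hx ?_
    rwa [Set.inter_comm]
  obtain ⟨y, hy⟩ := hf.nonempty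
  exact ⟨y, b1 hy.2, c1 hy.1⟩

/-- existence of a connected subgroup of full rank -/
theorem exists_conn {n : ℕ} {H : Subgroup G} (hH : D1 (H : Set G)) (r : RkGe D1 n (H : Set G))
    (r' : ¬ RkGe D1 (n + 1) (H : Set G)) :
    ∃ G0 : Subgroup G, G0 ≤ H ∧ D1 (G0 : Set G) ∧ RkGe D1 n (G0 : Set G) ∧ h.Conn n G0 := by
  by_contra hcon
  push Not at hcon
  refine r' (seq_lemma (fun K : Subgroup G => K ≤ H ∧ D1 (K : Set G) ∧ RkGe D1 n (K : Set G))
    (fun K => (K : Set G)) n ?_ H ⟨le_rfl, hH, r⟩)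
  rintro K ⟨h1, h2, h3⟩
  have h4 := hcon K h1 h2 h3
  unfold Conn at h4
  push Not at h4
  obtain ⟨K', h5, h6, h7, h8⟩ := h4
  obtain ⟨g, hg1, hg2⟩ : ∃ g ∈ K, g ∉ K' := by
    by_contra hc
    push Not at hc
    exact h8 (le_antisymm h6 hc)
  refine ⟨K', ⟨h6.trans h1, h5, h7⟩, h6, {b | g⁻¹ * b ∈ (K' : Set G)}, h.left _ h5 _, ?_, ?_,
    h.rk_left h7 _⟩
  · intro b hb
    have : g * (g⁻¹ * b) ∈ K := K.mul_mem hg1 (h6 hb)
    simpa using this
  · rw [Set.disjoint_left]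
    intro b hb hb'
    apply hg2
    have : b * (g⁻¹ * b)⁻¹ ∈ K' := K'.mul_mem hb' (K'.inv_mem hb)
    simpa using this

/-- infinitely many disjoint cosets raise the rank -/
theorem cosets {n : ℕ} {K : Subgroup G} (hK : D1 (K : Set G)) (r : RkGe D1 n (K : Set G))
    {H : Subgroup G} (hKH : K ≤ H) (t : ℕ → G) (ht : ∀ i, t i ∈ H)
    (ht' : ∀ i j, i < j → (t i)⁻¹ * t j ∉ K) : RkGe D1 (n + 1) (H : Set G) := by
  refine ⟨fun i => {b | (t i)⁻¹ * b ∈ (K : Set G)}, fun i => h.left _ hK _, fun i b hb => ?_, ?_,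
    fun i => h.rk_left r _⟩
  · have : t i * ((t i)⁻¹ * b) ∈ H := H.mul_mem (ht i) (hKH hb)
    simpa using this
  · have key : ∀ i j, i < j → Disjoint {b | (t i)⁻¹ * b ∈ (K : Set G)}
        {b | (t j)⁻¹ * b ∈ (K : Set G)} := by
      intro i j hij
      rw [Set.disjoint_left]
      intro b hb hb'
      apply ht' i j hij
      have : ((t i)⁻¹ * b) * ((t j)⁻¹ * b)⁻¹ ∈ K := K.mul_mem hb (K.inv_mem hb')
      have e : ((t i)⁻¹ * b) * ((t j)⁻¹ * b)⁻¹ = (t i)⁻¹ * t j := by group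
      rwa [e] at this
    intro i j hij
    rcases lt_or_gt_of_ne hij with hl | hl
    · exact key i j hl
    · exact (key j i hl).symm

/-- a subgroup of full rank meets every subgroup in full rank -/
theorem inter_rank {n r : ℕ} {H G0 T : Subgroup G} (hG : D1 (G0 : Set G)) (hT : D1 (T : Set G))
    (hGH : G0 ≤ H) (hTH : T ≤ H) (rG : RkGe D1 n (G0 : Set G)) (rH : ¬ RkGe D1 (n + 1) (H : Set G))
    (rT : RkGe D1 r (T : Set G)) : RkGe D1 r ((T : Set G) ∩ G0) := by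
  by_contra hcon
  have hseq := exists_seq_of_forall_finset_exists (fun t : G => t ∈ T)
    (fun t t' => t⁻¹ * t' ∉ G0) (by
      intro s hs
      by_contra hc
      push Not at hc
      have hcov : (T : Set G) ⊆ ⋃ t ∈ s, (T : Set G) ∩ {b | t⁻¹ * b ∈ (G0 : Set G)} := by
        intro b hb
        obtain ⟨t, ht, hbt⟩ := hc b hb
        rw [Set.mem_iUnion₂]
        exact ⟨t, ht, hb, hbt⟩
      obtain ⟨t, ht, hr⟩ := RkGe.biUnion h.inter1 h.union1 h.empty1 s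
        (fun t => (T : Set G) ∩ {b | t⁻¹ * b ∈ (G0 : Set G)})
        (fun t _ => h.inter1 _ _ hT (h.left _ hG _)) (rT.mono hcov)
      apply hcon
      refine (h.rk_left hr t).mono ?_
      rintro b ⟨hb1, hb2⟩
      refine ⟨?_, ?_⟩
      · have : t⁻¹ * (t * b) ∈ T := T.mul_mem (T.inv_mem (hs t ht)) hb1
        simpa using this
      · have : t⁻¹ * (t * b) ∈ G0 := hb2
        simpa using this)
  obtain ⟨t, ht1, ht2⟩ := hseq
  exact rH (h.cosets hG rG hGH t (fun i => hTH (ht1 i)) (fun i j hij => ht2 i j hij))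

/-- the conjugates of `T` are generic -/
theorem generous {n r : ℕ} {H G0 T Z : Subgroup G} (hG : D1 (G0 : Set G)) (hT : D1 (T : Set G))
    (hZ : D1 (Z : Set G)) (hGH : G0 ≤ H) (hTH : T ≤ H) (hZT : Z ≤ T)
    (rG : RkGe D1 n (G0 : Set G)) (rH : ¬ RkGe D1 (n + 1) (H : Set G))
    (rT : RkGe D1 r (T : Set G)) (rT' : ¬ RkGe D1 (r + 1) (T : Set G))
    (t : ℕ → G) (ht : ∀ i, t i ∈ T) (ht' : ∀ i j, i < j → (t i)⁻¹ * t j ∉ Z)
    (hnorm : ∀ g ∈ H, ∀ z ∈ Z, g⁻¹ * z * g ∈ Z)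
    (hcov : ∀ s ∈ T, s ∉ Z → ∃ F : Finset G, ∀ m ∈ H, m⁻¹ * s * m ∈ T → ∃ f ∈ F, m * f⁻¹ ∈ T) :
    D1 {s | ∃ g, g ∈ G0 ∧ s ∈ G0 ∧ s ∉ Z ∧ g⁻¹ * s * g ∈ T} ∧
    RkGe D1 n {s | ∃ g, g ∈ G0 ∧ s ∈ G0 ∧ s ∉ Z ∧ g⁻¹ * s * g ∈ T} := by
  have h1 : RkGe D1 r ((T : Set G) ∩ G0) := h.inter_rank hG hT hGH hTH rG rH rT
  have h2 : RkGe D1 r (((T : Set G) ∩ G0) \ Z) := by
    have e : (T : Set G) ∩ G0 = (((T : Set G) ∩ G0) ∩ Z) ∪ (((T : Set G) ∩ G0) \ Z) :=
      (Set.inter_union_sdiff _ _).symm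
    rw [e] at h1
    rcases RkGe.union h.inter1 (h.inter1 _ _ (h.inter1 _ _ hT hG) hZ)
      (h.diff1 _ _ (h.inter1 _ _ hT hG) hZ) h1 with h3 | h3
    · exfalso
      exact rT' (h.cosets hZ (h3.mono Set.inter_subset_right) hZT t ht ht')
    · exact h3
  set E : Set (G × G) := {p | p.1 ∈ (G0 : Set G)} ∩ ({p | p.2 ∈ (G0 : Set G)} ∩
    ({p | p.2 ∈ (Z : Set G)ᶜ} ∩ {p | p.1⁻¹ * p.2 * p.1 ∈ (T : Set G)})) with hE
  have hED : D2 E := h.inter2 _ _ (h.fst _ hG) (h.inter2 _ _ (h.snd _ hG)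
    (h.inter2 _ _ (h.snd _ (h.compl1 _ hZ)) (h.conj _ hT)))
  have h4 : RkGe D2 (n + r) E := by
    refine h.add_ge hED hG rG fun g hg => ?_
    refine (h.rk_cnj h2 g).mono ?_
    rintro b ⟨⟨hb1, hb2⟩, hb3⟩
    refine ⟨hg, ?_, ?_, hb1⟩
    · have : g * (g⁻¹ * b * g) * g⁻¹ ∈ G0 := G0.mul_mem (G0.mul_mem hg hb2) (G0.inv_mem hg)
      have e : g * (g⁻¹ * b * g) * g⁻¹ = b := by group
      rwa [e] at this
    · intro hbZ
      exact hb3 (hnorm g (hGH hg) b hbZ)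
  have h5 := h.rk_swap h4
  have h6 := h.add_le (h.swap _ hED) h5 (fun s hs => by
    obtain ⟨g0, hg0⟩ := hs.nonempty
    have a1 : g0 ∈ G0 := hg0.1
    have a2 : s ∈ G0 := hg0.2.1
    have a3 : s ∉ Z := hg0.2.2.1
    have a4 : g0⁻¹ * s * g0 ∈ T := hg0.2.2.2
    have a5 : g0⁻¹ * s * g0 ∉ Z := by
      intro hz
      have := hnorm g0⁻¹ (H.inv_mem (hGH a1)) _ hz
      have e : g0⁻¹⁻¹ * (g0⁻¹ * s * g0) * g0⁻¹ = s := by group
      rw [e] at this
      exact a3 this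
    obtain ⟨F, hF⟩ := hcov _ a4 a5
    have hsub : {b | (s, b) ∈ {p : G × G | (p.2, p.1) ∈ E}} ⊆
        ⋃ f ∈ F, {b | g0⁻¹ * b * f⁻¹ ∈ (T : Set G)} := by
      intro b hb
      have b1 : b ∈ G0 := hb.1
      have b4 : b⁻¹ * s * b ∈ T := hb.2.2.2
      obtain ⟨f, hf, hf'⟩ := hF (g0⁻¹ * b) (H.mul_mem (H.inv_mem (hGH a1)) (hGH b1)) (by
        have e : (g0⁻¹ * b)⁻¹ * (g0⁻¹ * s * g0) * (g0⁻¹ * b) = b⁻¹ * s * b := by group
        rw [e]
        exact b4)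
      rw [Set.mem_iUnion₂]
      exact ⟨f, hf, hf'⟩
    have hDf : ∀ f : G, {b : G | g0⁻¹ * b * f⁻¹ ∈ (T : Set G)} =
        {b | g0⁻¹ * b ∈ {c | c * f⁻¹ ∈ (T : Set G)}} := fun f => rfl
    obtain ⟨f, hf, hr⟩ := RkGe.biUnion h.inter1 h.union1 h.empty1 F
      (fun f => {b | g0⁻¹ * b * f⁻¹ ∈ (T : Set G)})
      (fun f _ => by rw [hDf]; exact h.left _ (h.right _ hT _) _) (hs.mono hsub)
    have h7 := h.rk_left hr g0
    have h8 := h.rk_right h7 f
    refine rT' (h8.mono ?_)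
    intro b hb
    have h9 : g0⁻¹ * (g0 * (b * f)) * f⁻¹ ∈ T := hb
    have e : g0⁻¹ * (g0 * (b * f)) * f⁻¹ = b := by group
    rwa [e] at h9)
  have e7 : {s | ∃ g, g ∈ G0 ∧ s ∈ G0 ∧ s ∉ Z ∧ g⁻¹ * s * g ∈ T} =
      {a | ∃ b, (a, b) ∈ {p : G × G | (p.2, p.1) ∈ E}} := rfl
  rw [e7]
  exact ⟨h.proj _ (h.swap _ hED), h6⟩

omit h in
theorem exists_rank {X : Type*} {Df : Set X → Prop} {A : Set X} (hA : A.Nonempty) {N : ℕ}
    (hN : ¬ RkGe Df N A) : ∃ n, RkGe Df n A ∧ ¬ RkGe Df (n + 1) A := by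
  classical
  have hex : ∃ j, ¬ RkGe Df j A := ⟨N, hN⟩
  have hf := Nat.find_spec hex
  have hf0 : Nat.find hex ≠ 0 := fun h0' => by rw [h0'] at hf; exact hf hA
  refine ⟨Nat.find hex - 1, ?_, ?_⟩
  · by_contra hc
    exact Nat.find_min hex (by omega) hc
  · rw [Nat.sub_add_cancel (by omega)]
    exact hf

/-- Two subgroups with many conjugates have conjugate elements. -/
theorem exists_conj {H T U Z : Subgroup G} (hH : D1 (H : Set G)) (hT : D1 (T : Set G))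
    (hU : D1 (U : Set G)) (hZ : D1 (Z : Set G)) (hTH : T ≤ H) (hUH : U ≤ H) (hZT : Z ≤ T)
    (hZU : Z ≤ U) (hnorm : ∀ g ∈ H, ∀ z ∈ Z, g⁻¹ * z * g ∈ Z)
    (t : ℕ → G) (ht : ∀ i, t i ∈ T) (ht' : ∀ i j, i < j → (t i)⁻¹ * t j ∉ Z)
    (u : ℕ → G) (hu : ∀ i, u i ∈ U) (hu' : ∀ i j, i < j → (u i)⁻¹ * u j ∉ Z)
    (hcovT : ∀ s ∈ T, s ∉ Z → ∃ F : Finset G, ∀ m ∈ H, m⁻¹ * s * m ∈ T → ∃ f ∈ F, m * f⁻¹ ∈ T)
    (hcovU : ∀ s ∈ U, s ∉ Z → ∃ F : Finset G, ∀ m ∈ H, m⁻¹ * s * m ∈ U → ∃ f ∈ F, m * f⁻¹ ∈ U) :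
    ∃ g ∈ H, ∃ s ∈ T, s ∉ Z ∧ g⁻¹ * s * g ∈ U := by
  obtain ⟨N, hN⟩ := h.fin
  have hN' : ∀ A : Set G, ¬ RkGe D1 N A := fun A hA => hN (hA.mono (Set.subset_univ _))
  obtain ⟨n, rH, rH'⟩ := exists_rank ⟨1, H.one_mem⟩ (hN' (H : Set G))
  obtain ⟨r, rT, rT'⟩ := exists_rank ⟨1, T.one_mem⟩ (hN' (T : Set G))
  obtain ⟨r2, rU, rU'⟩ := exists_rank ⟨1, U.one_mem⟩ (hN' (U : Set G))
  obtain ⟨G0, g1, g2, g3, g4⟩ := h.exists_conn hH rH rH'
  obtain ⟨d1, r1⟩ := h.generous g2 hT hZ g1 hTH hZT g3 rH' rT rT' t ht ht' hnorm hcovT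
  obtain ⟨d2, r2⟩ := h.generous g2 hU hZ g1 hUH hZU g3 rH' rU rU' u hu hu' hnorm hcovU
  obtain ⟨s, hs1, hs2⟩ := h.meet g2 (fun hc => rH' (hc.mono g1)) g4 d1 d2
    (fun s hs => hs.choose_spec.2.1) (fun s hs => hs.choose_spec.2.1) r1 r2
  obtain ⟨a, a1, a2, a3, a4⟩ := hs1
  obtain ⟨b, b1, -, -, b4⟩ := hs2
  refine ⟨a⁻¹ * b, H.mul_mem (H.inv_mem (g1 a1)) (g1 b1), a⁻¹ * s * a, a4, ?_, ?_⟩
  · intro hz
    have := hnorm a⁻¹ (H.inv_mem (g1 a1)) _ hz
    have e : a⁻¹⁻¹ * (a⁻¹ * s * a) * a⁻¹ = s := by group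
    rw [e] at this
    exact a3 this
  · have e : (a⁻¹ * b)⁻¹ * (a⁻¹ * s * a) * (a⁻¹ * b) = b⁻¹ * s * b := by group
    rw [e]
    exact b4

end DG

end Pool.Agent.H78.FMR
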